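import Pool.Agent.H41.Chr.Defs

/-!
# MP_8666b3_co: basic notions for the construction
Relations (possibly with loops) are used for the auxiliary graph `P`.
-/

namespace Pool.Agent.H41.Chr

open SimpleGraph

/-- Cross adjacency of two `j`-tuples of vertices. -/
def Cross {V : Type*} (H : SimpleGraph V) {j : ℕ} (f g : Fin j → V) : Prop :=
  ∀ i i' : Fin j, i ≠ i' → H.Adj (f i) (g i')

/-- The relation `P` is `(m,a)`-good: there is a nonempty finite set `X` of vertices such that
every independent subset `S` of `X` satisfies `m * |S| ≤ a * |X|`. -/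
def GoodR {α : Type*} (m a : ℕ) (P : α → α → Prop) : Prop :=
  ∃ X : Finset α, X.Nonempty ∧
    ∀ S ⊆ X, (∀ x ∈ S, ∀ y ∈ S, ¬ P x y) → m * S.card ≤ a * X.card

/-- `H` blocks `(m,a)`: for a good symmetric relation `P` there is no homomorphism
from `K_{a+1} × P` to `H`. -/
def Blocks (m a : ℕ) {V : Type*} (H : SimpleGraph V) : Prop :=
  ∀ (n : ℕ) (P : Fin n → Fin n → Prop), (∀ x y, P x y → P y x) → GoodR m a P →
    ∀ f : Fin n → Fin (a + 1) → V, ¬ ∀ p q, P p q → Cross H (f p) (f q)

/-- `H` has `R` independent sets covering every vertex at least `r` times. -/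
def FracCov (R r : ℕ) {V : Type*} (H : SimpleGraph V) : Prop :=
  ∃ S : Fin R → V → Prop, (∀ t x y, S t x → S t y → ¬ H.Adj x y) ∧
    ∀ v, ∃ T : Finset (Fin R), r ≤ T.card ∧ ∀ t ∈ T, S t v

/-- A selector for `j`-tuples: it chooses an entry of every tuple, and it is a homomorphism on
cross adjacent pairs of injective tuples. -/
def HasSel (j : ℕ) {V : Type*} (H : SimpleGraph V) : Prop :=
  ∃ psi : (Fin j → V) → V, (∀ f, ∃ i, psi f = f i) ∧
    ∀ f g : Fin j → V, Function.Injective f → Function.Injective g → Cross H f g →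
      H.Adj (psi f) (psi g)

/-- No two injective `j`-tuples are cross adjacent. -/
def NoInj (j : ℕ) {V : Type*} (H : SimpleGraph V) : Prop :=
  ∀ f g : Fin j → V, Function.Injective f → Function.Injective g → ¬ Cross H f g

/-- Circular distance on `{0, ..., N-1}`. -/
def cdist (N u v : ℕ) : ℕ := min ((v - u) + (u - v)) (N - ((v - u) + (u - v)))

theorem cdist_comm (N u v : ℕ) : cdist N u v = cdist N v u := by
  unfold cdist; rw [Nat.add_comm (v - u) (u - v)]

/-- The circulant graph on `Fin N`: distinct vertices whose circular distance satisfies `C`. -/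
def circ (N : ℕ) (C : ℕ → Prop) : SimpleGraph (Fin N) where
  Adj u v := u ≠ v ∧ C (cdist N u v)
  symm := ⟨fun u v h => ⟨h.1.symm, by rw [cdist_comm]; exact h.2⟩⟩
  loopless := ⟨fun _ h => h.1 rfl⟩

/-- Allowed circular distances of the general circulant: at least `a`, and neither the distance
nor its complement in `N` lies in `[3a, 3a+t]`. -/
def DC (N a t d : ℕ) : Prop :=
  a ≤ d ∧ ¬ (3 * a ≤ d ∧ d ≤ 3 * a + t) ∧ ¬ (3 * a + d ≤ N ∧ N ≤ 3 * a + t + d)

/-- `E`-freeness: no cross adjacent tuples `x`, `y` with `x_i`, `y_i` at circular distance `< a`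
for all `i`. -/
def EFree (N a : ℕ) (M : SimpleGraph (Fin N)) : Prop :=
  ∀ x y : Fin (a + 1) → Fin N, Cross M x y → ¬ ∀ i, cdist N (x i) (y i) < a

end Pool.Agent.H41.Chr
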