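import Mathlib

/-!
# MP_8666b3_co: chromatic Ramsey numbers. Common definitions.
-/

namespace Pool.Agent.H41.Chr

open SimpleGraph

/-- `Arrows F G`: every colouring of the edges of `F` with two colours contains a copy of `G`
(as a not necessarily induced subgraph) all of whose edges receive the same colour. -/
def Arrows {V W : Type*} (F : SimpleGraph V) (G : SimpleGraph W) : Prop :=
  ∀ c : Sym2 V → Bool, ∃ b : Bool, ∃ φ : W ↪ V, ∀ x y, G.Adj x y →
    F.Adj (φ x) (φ y) ∧ c s(φ x, φ y) = b

/-- The chromatic Ramsey number of `G`: the least `N` for which some finite graph `F` with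
chromatic number `N` arrows `G`. -/
noncomputable def RChi {W : Type*} (G : SimpleGraph W) : ℕ :=
  sInf {N : ℕ | ∃ (n : ℕ) (F : SimpleGraph (Fin n)), F.chromaticNumber = (N : ℕ∞) ∧ Arrows F G}

/-- `G` maps to `A` or to the complement of `A`. -/
def MapsEither {W V : Type*} (G : SimpleGraph W) (A : SimpleGraph V) : Prop :=
  Nonempty (G →g A) ∨ Nonempty (G →g Aᶜ)

/-- The categorical (tensor) product of two graphs. -/
def tensor {V W : Type*} (G : SimpleGraph V) (H : SimpleGraph W) : SimpleGraph (V × W) where
  Adj p q := G.Adj p.1 q.1 ∧ H.Adj p.2 q.2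
  symm := ⟨fun _ _ h => ⟨h.1.symm, h.2.symm⟩⟩
  loopless := ⟨fun _ h => G.loopless.irrefl _ h.1⟩

/-- `Good m a P`: some nonempty finite set `X` of vertices has no independent subset with more
than `a / m * |X|` elements (so the Hall ratio of `P` is at least `m / a`). -/
def Good {V : Type*} (m a : ℕ) (P : SimpleGraph V) : Prop :=
  ∃ X : Finset V, X.Nonempty ∧ ∀ S ⊆ X, P.IsIndepSet (S : Set V) → m * S.card ≤ a * X.card

end Pool.Agent.H41.Chr
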