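import Pool.Agent.H41.Chr.Base
import Pool.Agent.H10.Chr.Crit

/-!
# MP_8666b3_co: good relations, products, covers and the realization theorem
-/

namespace Pool.Agent.H41.Chr

open SimpleGraph Finset

section Prod

variable {α β : Type*}

open Classical in
/-- In a minimal good set, independent sets expand. -/
theorem exists_expanding (m a : ℕ) (P : α → α → Prop) (hs : ∀ x y, P x y → P y x)
    (h : GoodR m a P) :
    ∃ X : Finset α, X.Nonempty ∧ ∀ S ⊆ X, (∀ x ∈ S, ∀ y ∈ S, ¬ P x y) →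
      m * S.card ≤ a * (X.filter (fun x => x ∈ S ∨ ∃ y ∈ S, P y x)).card := by
  have h' : ∃ n, ∃ X : Finset α, X.card = n ∧ X.Nonempty ∧
      ∀ S ⊆ X, (∀ x ∈ S, ∀ y ∈ S, ¬ P x y) → m * S.card ≤ a * X.card := by
    obtain ⟨X, hX⟩ := h
    exact ⟨X.card, X, rfl, hX⟩
  obtain ⟨X, hcard, hne, hX⟩ := Nat.find_spec h'
  have hmin : ∀ Y : Finset α, Y.Nonempty → Y.card < X.card →
      ∃ S ⊆ Y, (∀ x ∈ S, ∀ y ∈ S, ¬ P x y) ∧ a * Y.card < m * S.card := by
    intro Y hY hlt
    have := Nat.find_min h' (m := Y.card) (by omega)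
    by_contra hcon
    push Not at hcon
    exact this ⟨Y, rfl, hY, fun S hS hi => hcon S hS hi⟩
  refine ⟨X, hne, fun S hSX hS => ?_⟩
  by_contra hlt
  push Not at hlt
  set Nb := X.filter (fun x => x ∈ S ∨ ∃ y ∈ S, P y x) with hNb
  set Y := X \ Nb with hY
  have hSNb : S ⊆ Nb := fun x hx => by
    rw [hNb, mem_filter]; exact ⟨hSX hx, Or.inl hx⟩
  have hNbX : Nb ⊆ X := filter_subset _ _
  have hSne : S.Nonempty := by
    rw [nonempty_iff_ne_empty]; rintro rfl; simp at hlt
  have hcY : Y.card + Nb.card = X.card := card_sdiff_add_card_eq_card hNbX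
  have hNbpos : 0 < Nb.card := lt_of_lt_of_le hSne.card_pos (card_le_card hSNb)
  rcases Y.eq_empty_or_nonempty with hYe | hYne
  · have : Nb = X := by
      apply Subset.antisymm hNbX
      rw [hY] at hYe
      exact sdiff_eq_empty_iff_subset.1 hYe
    rw [this] at hlt
    exact absurd (hX S hSX hS) (by omega)
  · obtain ⟨T, hTY, hT, hTlt⟩ := hmin Y hYne (by omega)
    have hTX : T ⊆ X := hTY.trans sdiff_subset
    have hdisj : Disjoint S T := by
      rw [Finset.disjoint_left]; intro x hxS hxT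
      have := hTY hxT
      rw [hY, mem_sdiff] at this
      exact this.2 (hSNb hxS)
    have hcross : ∀ x ∈ S, ∀ y ∈ T, ¬ P x y := by
      intro x hx y hy hP
      have := hTY hy
      rw [hY, mem_sdiff] at this
      apply this.2
      rw [hNb, mem_filter]
      exact ⟨hTX hy, Or.inr ⟨x, hx, hP⟩⟩
    have hind : ∀ x ∈ S ∪ T, ∀ y ∈ S ∪ T, ¬ P x y := by
      intro x hx y hy hP
      rcases mem_union.1 hx with hx | hx <;> rcases mem_union.1 hy with hy | hy
      · exact hS x hx y hy hP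
      · exact hcross x hx y hy hP
      · exact hcross y hy x hx (hs _ _ hP)
      · exact hT x hx y hy hP
    have := hX (S ∪ T) (union_subset hSX hTX) hind
    rw [card_union_of_disjoint hdisj] at this
    have e : a * X.card = a * Y.card + a * Nb.card := by rw [← hcY]; ring
    rw [mul_add] at this
    omega

open Classical in
/-- The product lemma for good relations. -/
theorem goodR_prod (m a : ℕ) (P : α → α → Prop) (Q : β → β → Prop)
    (hP : ∀ x y, P x y → P y x) (hQ : ∀ x y, Q x y → Q y x)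
    (h1 : GoodR m a P) (h2 : GoodR m a Q) :
    GoodR m a (fun u v : α × β => P u.1 v.1 ∧ Q u.2 v.2) := by
  obtain ⟨X, hXne, hX⟩ := exists_expanding m a P hP h1
  obtain ⟨Y, hYne, hY⟩ := exists_expanding m a Q hQ h2
  refine ⟨X ×ˢ Y, hXne.product hYne, fun U hU hI => ?_⟩
  -- rows and columns
  set A := U.filter (fun u => ¬ ∃ x', (x', u.2) ∈ U ∧ P x' u.1) with hA
  set B := U.filter (fun u => ∃ x', (x', u.2) ∈ U ∧ P x' u.1) with hB
  have hAB : A.card + B.card = U.card := by
    rw [hA, hB, add_comm]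
    exact card_filter_add_card_filter_not _
  set Ar : β → Finset α := fun y => X.filter (fun x => (x, y) ∈ A) with hAr
  set Br : α → Finset β := fun x => Y.filter (fun y => (x, y) ∈ B) with hBr
  set C := (X ×ˢ Y).filter (fun u => u.1 ∈ Ar u.2 ∨ ∃ x ∈ Ar u.2, P x u.1) with hC
  set D := (X ×ˢ Y).filter (fun u => u.2 ∈ Br u.1 ∨ ∃ y ∈ Br u.1, Q y u.2) with hD
  have hcA : m * A.card ≤ a * C.card := by
    have e1 : A.card = ∑ y ∈ Y, (Ar y).card := by
      rw [card_eq_sum_card_fiberwise (f := Prod.snd) (t := Y)]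
      · refine sum_congr rfl fun y hy => ?_
        refine card_bij (fun u _ => u.1) ?_ ?_ ?_
        · rintro ⟨x, y'⟩ hu
          simp only [mem_filter] at hu
          obtain ⟨hu, rfl⟩ := hu
          have hux : (x, y') ∈ X ×ˢ Y := hU (mem_of_mem_filter _ hu)
          rw [hAr]; simp only [mem_filter]
          exact ⟨(mem_product.1 hux).1, hu⟩
        · rintro ⟨x, y'⟩ hu ⟨x2, y2⟩ hu2 h
          simp only [mem_filter] at hu hu2
          obtain ⟨hu, rfl⟩ := hu
          obtain ⟨hu2, h3⟩ := hu2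
          simp only at h h3
          rw [h, h3]
        · intro x hx
          rw [hAr] at hx; simp only [mem_filter] at hx
          exact ⟨(x, y), by simp only [mem_filter]; exact ⟨hx.2, trivial⟩, rfl⟩
      · intro u hu
        have hux : u ∈ X ×ˢ Y := hU (mem_of_mem_filter _ hu)
        exact (mem_product.1 hux).2
    have e2 : C.card = ∑ y ∈ Y, (X.filter (fun x => x ∈ Ar y ∨ ∃ x' ∈ Ar y, P x' x)).card := by
      rw [card_eq_sum_card_fiberwise (f := Prod.snd) (t := Y)]
      · refine sum_congr rfl fun y hy => ?_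
        refine card_bij (fun u _ => u.1) ?_ ?_ ?_
        · rintro ⟨x, y'⟩ hu
          simp only [hC, mem_filter, mem_product] at hu
          obtain ⟨⟨⟨hx, _⟩, hu⟩, rfl⟩ := hu
          simp only [mem_filter]
          exact ⟨hx, hu⟩
        · rintro ⟨x, y'⟩ hu ⟨x2, y2⟩ hu2 h
          simp only [mem_filter] at hu hu2
          obtain ⟨hu, rfl⟩ := hu
          obtain ⟨hu2, h3⟩ := hu2
          simp only at h h3
          rw [h, h3]
        · intro x hx
          simp only [mem_filter] at hx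
          refine ⟨(x, y), ?_, rfl⟩
          simp only [hC, mem_filter, mem_product]
          exact ⟨⟨⟨hx.1, hy⟩, hx.2⟩, trivial⟩
      · intro u hu
        exact (mem_product.1 (mem_of_mem_filter _ hu)).2
    rw [e1, e2, mul_sum, mul_sum]
    refine sum_le_sum fun y hy => ?_
    refine hX (Ar y) (filter_subset _ _) ?_
    intro x hx x' hx' hPx
    rw [hAr] at hx hx'; simp only [mem_filter] at hx hx'
    have h3 := hx'.2
    rw [hA, mem_filter] at h3
    exact h3.2 ⟨x, mem_of_mem_filter _ hx.2, hPx⟩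
  have hcB : m * B.card ≤ a * D.card := by
    have e1 : B.card = ∑ x ∈ X, (Br x).card := by
      rw [card_eq_sum_card_fiberwise (f := Prod.fst) (t := X)]
      · refine sum_congr rfl fun x hx => ?_
        refine card_bij (fun u _ => u.2) ?_ ?_ ?_
        · rintro ⟨x', y⟩ hu
          simp only [mem_filter] at hu
          obtain ⟨hu, rfl⟩ := hu
          have hux : (x', y) ∈ X ×ˢ Y := hU (mem_of_mem_filter _ hu)
          rw [hBr]; simp only [mem_filter]
          exact ⟨(mem_product.1 hux).2, hu⟩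
        · rintro ⟨x', y'⟩ hu ⟨x2, y2⟩ hu2 h
          simp only [mem_filter] at hu hu2
          obtain ⟨hu, rfl⟩ := hu
          obtain ⟨hu2, h3⟩ := hu2
          simp only at h h3
          rw [h, h3]
        · intro y hy
          rw [hBr] at hy; simp only [mem_filter] at hy
          exact ⟨(x, y), by simp only [mem_filter]; exact ⟨hy.2, trivial⟩, rfl⟩
      · intro u hu
        have hux : u ∈ X ×ˢ Y := hU (mem_of_mem_filter _ hu)
        exact (mem_product.1 hux).1
    have e2 : D.card = ∑ x ∈ X, (Y.filter (fun y => y ∈ Br x ∨ ∃ y' ∈ Br x, Q y' y)).card := by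
      rw [card_eq_sum_card_fiberwise (f := Prod.fst) (t := X)]
      · refine sum_congr rfl fun x hx => ?_
        refine card_bij (fun u _ => u.2) ?_ ?_ ?_
        · rintro ⟨x', y⟩ hu
          simp only [hD, mem_filter, mem_product] at hu
          obtain ⟨⟨⟨_, hy⟩, hu⟩, rfl⟩ := hu
          simp only [mem_filter]
          exact ⟨hy, hu⟩
        · rintro ⟨x', y'⟩ hu ⟨x2, y2⟩ hu2 h
          simp only [mem_filter] at hu hu2
          obtain ⟨hu, rfl⟩ := hu
          obtain ⟨hu2, h3⟩ := hu2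
          simp only at h h3
          rw [h, h3]
        · intro y hy
          simp only [mem_filter] at hy
          refine ⟨(x, y), ?_, rfl⟩
          simp only [hD, mem_filter, mem_product]
          exact ⟨⟨⟨hx, hy.1⟩, hy.2⟩, trivial⟩
      · intro u hu
        exact (mem_product.1 (mem_of_mem_filter _ hu)).1
    rw [e1, e2, mul_sum, mul_sum]
    refine sum_le_sum fun x hx => ?_
    refine hY (Br x) (filter_subset _ _) ?_
    intro y hy y' hy' hQy
    rw [hBr] at hy hy'; simp only [mem_filter] at hy hy'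
    have h3 := hy.2
    rw [hB, mem_filter] at h3
    obtain ⟨hxy, x', hx'U, hPx⟩ := h3
    exact hI _ hx'U _ (mem_of_mem_filter _ hy'.2) ⟨hPx, hQy⟩
  have hdisj : Disjoint C D := by
    rw [Finset.disjoint_left]
    rintro ⟨x, y⟩ hc hd
    rw [hC, mem_filter] at hc
    rw [hD, mem_filter] at hd
    obtain ⟨hxy, hc⟩ := hc
    obtain ⟨_, hd⟩ := hd
    simp only [hAr, hBr, mem_filter] at hc hd
    rcases hc with ⟨_, hc⟩ | ⟨x1, ⟨_, hx1⟩, hx1P⟩
    · rcases hd with ⟨_, hd⟩ | ⟨y1, ⟨_, hy1⟩, hy1Q⟩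
      · rw [hA, mem_filter] at hc
        rw [hB, mem_filter] at hd
        exact hc.2 hd.2
      · rw [hB, mem_filter] at hy1
        obtain ⟨_, x', hx'U, hx'P⟩ := hy1
        exact hI _ hx'U _ (mem_of_mem_filter _ hc) ⟨hx'P, hy1Q⟩
    · rcases hd with ⟨_, hd⟩ | ⟨y1, ⟨_, hy1⟩, hy1Q⟩
      · rw [hA, mem_filter] at hx1
        exact hx1.2 ⟨x, mem_of_mem_filter _ hd, hP _ _ hx1P⟩
      · exact hI _ (mem_of_mem_filter _ hx1) _ (mem_of_mem_filter _ hy1) ⟨hx1P, hQ _ _ hy1Q⟩
  have hCD : C.card + D.card ≤ (X ×ˢ Y).card := by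
    rw [← card_union_of_disjoint hdisj]
    exact card_le_card (union_subset (filter_subset _ _) (filter_subset _ _))
  calc m * U.card = m * A.card + m * B.card := by rw [← hAB]; ring
    _ ≤ a * C.card + a * D.card := add_le_add hcA hcB
    _ = a * (C.card + D.card) := by ring
    _ ≤ a * (X ×ˢ Y).card := Nat.mul_le_mul_left _ hCD

end Prod

/-- Transport of goodness along a bijection. -/
theorem goodR_equiv {α β : Type*} (m a : ℕ) (P : α → α → Prop) (e : β ≃ α)
    (h : GoodR m a P) : GoodR m a (fun x y : β => P (e x) (e y)) := by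
  classical
  obtain ⟨X, hne, hX⟩ := h
  refine ⟨X.map e.symm.toEmbedding, hne.map, fun S hS hI => ?_⟩
  have h1 := hX (S.map e.toEmbedding) ?_ ?_
  · simpa using h1
  · intro x hx
    rw [mem_map] at hx
    obtain ⟨y, hy, rfl⟩ := hx
    have := hS hy
    rw [mem_map] at this
    obtain ⟨z, hz, rfl⟩ := this
    simpa using hz
  · intro x hx y hy
    rw [mem_map] at hx hy
    obtain ⟨x', hx', rfl⟩ := hx
    obtain ⟨y', hy', rfl⟩ := hy
    exact hI _ hx' _ hy'

/-- A common good relation mapping to all members of a list of good graphs. -/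
theorem exists_common (m a n : ℕ) (L : List (SimpleGraph (Fin n)))
    (hL : ∀ A ∈ L, GoodR m a A.Adj) :
    ∃ (k : ℕ) (P : Fin k → Fin k → Prop), (∀ x y, P x y → P y x) ∧ GoodR m a P ∧
      ∀ A ∈ L, ∃ f : Fin k → Fin n, ∀ x y, P x y → A.Adj (f x) (f y) := by
  induction L with
  | nil =>
    refine ⟨1, fun _ _ => True, fun _ _ _ => trivial, ⟨univ, ⟨0, mem_univ _⟩, ?_⟩, by simp⟩
    intro S _ hI
    have : S = ∅ := by
      rw [eq_empty_iff_forall_notMem]
      intro x hx
      exact hI x hx x hx trivial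
    simp [this]
  | cons A L ih =>
    obtain ⟨k, P, hP, hg, hf⟩ := ih (fun B hB => hL B (List.mem_cons_of_mem _ hB))
    have hA := hL A List.mem_cons_self
    have hprod := goodR_prod m a P A.Adj hP (fun x y h => h.symm) hg hA
    have e : Fin (k * n) ≃ Fin k × Fin n := finProdFinEquiv.symm
    refine ⟨k * n, fun x y => P (e x).1 (e y).1 ∧ A.Adj (e x).2 (e y).2,
      fun x y h => ⟨hP _ _ h.1, h.2.symm⟩, goodR_equiv m a _ e hprod, ?_⟩
    intro B hB
    rcases List.mem_cons.1 hB with rfl | hB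
    · exact ⟨fun x => (e x).2, fun x y h => h.2⟩
    · obtain ⟨f, hf⟩ := hf B hB
      exact ⟨fun x => f (e x).1, fun x y h => hf _ _ h.1⟩

/-- The cover lemma. -/
theorem cover_le {α : Type*} (m a R r : ℕ) (P : α → α → Prop) (hg : GoodR m a P)
    (S : Fin R → α → Prop) (hS : ∀ t x y, S t x → S t y → ¬ P x y)
    (hc : ∀ x, ∃ T : Finset (Fin R), r ≤ T.card ∧ ∀ t ∈ T, S t x) : m * r ≤ a * R := by
  classical
  obtain ⟨X, hne, hX⟩ := hg
  have h1 : ∑ t : Fin R, m * (X.filter (fun x => S t x)).card ≤ ∑ t : Fin R, a * X.card :=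
    sum_le_sum fun t _ => hX _ (filter_subset _ _) (by
      intro x hx y hy
      exact hS t x y (mem_filter.1 hx).2 (mem_filter.1 hy).2)
  have h2 : X.card * r ≤ ∑ t : Fin R, (X.filter (fun x => S t x)).card := by
    have : ∑ t : Fin R, (X.filter (fun x => S t x)).card
        = ∑ x ∈ X, ((univ : Finset (Fin R)).filter (fun t => S t x)).card := by
      simp only [card_filter]
      exact sum_comm
    rw [this, ← smul_eq_mul, ← sum_const]
    refine sum_le_sum fun x _ => ?_
    obtain ⟨T, hT, hTS⟩ := hc x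
    exact hT.trans (card_le_card (fun t ht => by
      rw [mem_filter]; exact ⟨mem_univ _, hTS t ht⟩))
  rw [← mul_sum] at h1
  simp only [sum_const, card_univ, Fintype.card_fin, smul_eq_mul] at h1
  have h3 : m * (X.card * r) ≤ R * (a * X.card) := (Nat.mul_le_mul_left m h2).trans h1
  have h4 : X.card * (m * r) ≤ X.card * (a * R) := by
    calc X.card * (m * r) = m * (X.card * r) := by ring
      _ ≤ R * (a * X.card) := h3
      _ = X.card * (a * R) := by ring
  exact Nat.le_of_mul_le_mul_left h4 hne.card_pos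

/-- A selector and a fractional cover give blocking. -/
theorem blocks_of_sel (m a R r : ℕ) {V : Type*} (H : SimpleGraph V) (hm : a * R < m * r)
    (hc : FracCov R r H) (hs : HasSel (a + 1) H) : Blocks m a H := by
  classical
  intro n P hP hg f hf
  obtain ⟨psi, hpsi, hpsi2⟩ := hs
  obtain ⟨S, hS, hcov⟩ := hc
  -- the homomorphism from `P` to `H`
  have key : ∀ p : Fin n, ∃ v : V, (∃ i i', i ≠ i' ∧ f p i = v ∧ f p i' = v) ∨
      (Function.Injective (f p) ∧ v = psi (f p)) := by
    intro p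
    by_cases hi : Function.Injective (f p)
    · exact ⟨psi (f p), Or.inr ⟨hi, rfl⟩⟩
    · unfold Function.Injective at hi
      push Not at hi
      obtain ⟨i, i', h1, h2⟩ := hi
      exact ⟨f p i, Or.inl ⟨i, i', h2, rfl, h1.symm⟩⟩
  choose φ hφ using key
  have hhom : ∀ p q, P p q → H.Adj (φ p) (φ q) := by
    intro p q hpq
    have hc1 := hf p q hpq
    rcases hφ p with ⟨i, i', hne, h1, h2⟩ | ⟨hinj, h1⟩
    · -- plural at p
      have : ∃ k, φ q = f q k := by
        rcases hφ q with ⟨k, _, _, h3, _⟩ | ⟨_, h3⟩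
        · exact ⟨k, h3.symm⟩
        · obtain ⟨k, hk⟩ := hpsi (f q)
          exact ⟨k, h3.trans hk⟩
      obtain ⟨k, hk⟩ := this
      rw [hk]
      by_cases hik : i = k
      · rw [← h2]; exact hc1 i' k (fun h => hne (hik.trans h.symm))
      · rw [← h1]; exact hc1 i k hik
    · rcases hφ q with ⟨k, k', hne, h3, h4⟩ | ⟨hinj2, h3⟩
      · obtain ⟨i, hi⟩ := hpsi (f p)
        rw [h1, hi]
        by_cases hik : i = k
        · rw [← h4]; exact hc1 i k' (fun h => hne (hik.symm.trans h))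
        · rw [← h3]; exact hc1 i k hik
      · rw [h1, h3]
        exact hpsi2 _ _ hinj hinj2 hc1
  have := cover_le m a R r P hg (fun t p => S t (φ p))
    (fun t x y hx hy hxy => hS t _ _ hx hy (hhom _ _ hxy)) (fun x => hcov (φ x))
  omega

theorem hasSel_of_noInj (j : ℕ) (hj : 0 < j) {V : Type*} (H : SimpleGraph V) (h : NoInj j H) :
    HasSel j H :=
  ⟨fun f => f ⟨0, hj⟩, fun f => ⟨_, rfl⟩, fun f g hf hg hc => absurd hc (h f g hf hg)⟩

/-- Blocking when `K_{a+1}` itself is good. -/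
theorem blocks_easy (m a R r : ℕ) {V : Type*} (H : SimpleGraph V) (hm : a * R < m * r)
    (hma : m ≤ a * (a + 1)) (hc : FracCov R r H) : Blocks m a H := by
  intro n P hP hg f hf
  obtain ⟨S, hS, hcov⟩ := hc
  have hK : GoodR m a (fun x y : Fin (a + 1) => x ≠ y) := by
    refine ⟨univ, ⟨0, mem_univ _⟩, fun T _ hT => ?_⟩
    have : T.card ≤ 1 := by
      rw [card_le_one]
      intro x hx y hy
      by_contra hne
      exact hT x hx y hy hne
    calc m * T.card ≤ m * 1 := Nat.mul_le_mul_left _ this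
      _ = m := mul_one m
      _ ≤ a * (a + 1) := hma
      _ = a * (univ : Finset (Fin (a + 1))).card := by rw [card_univ, Fintype.card_fin]
  have hprod := goodR_prod m a P (fun x y : Fin (a + 1) => x ≠ y) hP (fun x y h => h.symm) hg hK
  have := cover_le m a R r _ hprod (fun t u => S t (f u.1 u.2))
    (fun t x y hx hy hxy => hS t _ _ hx hy (hf _ _ hxy.1 _ _ hxy.2)) (fun u => hcov _)
  omega

/-- The uniform estimate: an `m`-vertex graph without independent sets of size `a+1` is good. -/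
theorem goodR_of_indep (m a : ℕ) (hm : 0 < m) (A : SimpleGraph (Fin m))
    (h : ∀ S : Finset (Fin m), (∀ x ∈ S, ∀ y ∈ S, ¬ A.Adj x y) → S.card ≤ a) :
    GoodR m a A.Adj := by
  refine ⟨univ, ⟨⟨0, hm⟩, mem_univ _⟩, fun S _ hS => ?_⟩
  rw [card_univ, Fintype.card_fin, mul_comm a m]
  exact Nat.mul_le_mul_left _ (h S hS)

/-- An independent set of size `a+1` gives a homomorphism of `K_{a+1}` to the complement. -/
theorem hom_of_indep (a : ℕ) {V : Type*} (A : SimpleGraph V) (S : Finset V)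
    (hS : ∀ x ∈ S, ∀ y ∈ S, ¬ A.Adj x y) (hc : a + 1 ≤ S.card) :
    ∃ g : Fin (a + 1) → V, ∀ i i', i ≠ i' → Aᶜ.Adj (g i) (g i') := by
  have e := S.equivFin
  refine ⟨fun i => (e.symm (Fin.castLE hc i) : V), fun i i' hne => ?_⟩
  rw [SimpleGraph.compl_adj]
  refine ⟨fun h => hne ?_, hS _ (e.symm _).2 _ (e.symm _).2⟩
  have h2 := e.symm.injective (Subtype.ext h)
  exact Fin.castLE_injective hc h2

/-- The realization theorem: a graph on `m` vertices blocking `(m+1, a)` on both sides makes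
`m + 1` a chromatic Ramsey number. -/
theorem realize (m a : ℕ) (M : SimpleGraph (Fin m)) (h1 : Blocks (m + 1) a M)
    (h2 : Blocks (m + 1) a Mᶜ) : ∃ (n : ℕ) (G : SimpleGraph (Fin n)), RChi G = m + 1 := by
  classical
  -- all graphs on `m+1` vertices without independent sets or cliques of size `a+1`
  set F : Finset (SimpleGraph (Fin (m + 1))) := univ.filter (fun A =>
    ∀ S : Finset (Fin (m + 1)), (∀ x ∈ S, ∀ y ∈ S, ¬ A.Adj x y) → S.card ≤ a) with hF
  obtain ⟨k, P, hP, hg, hf⟩ := exists_common (m + 1) a (m + 1) F.toList (by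
    intro A hA
    rw [mem_toList, hF, mem_filter] at hA
    exact goodR_of_indep (m + 1) a (Nat.succ_pos _) A hA.2)
  -- the graph `K_{a+1} × P`
  let G : SimpleGraph (Fin (a + 1) × Fin k) :=
    { Adj := fun u v => u.1 ≠ v.1 ∧ P u.2 v.2
      symm := ⟨fun u v h => ⟨h.1.symm, hP _ _ h.2⟩⟩
      loopless := ⟨fun u h => h.1 rfl⟩ }
  have hmap : ∀ A : SimpleGraph (Fin (m + 1)), MapsEither G A := by
    intro A
    by_cases hA : A ∈ F
    · obtain ⟨f1, hf1⟩ := hf A (by rw [mem_toList]; exact hA)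
      exact Or.inl ⟨⟨fun u => f1 u.2, fun {u v} h => hf1 _ _ h.2⟩⟩
    · rw [hF, mem_filter] at hA
      push Not at hA
      obtain ⟨S, hS, hc⟩ := hA (mem_univ _)
      obtain ⟨g, hg⟩ := hom_of_indep a A S hS hc
      exact Or.inr ⟨⟨fun u => g u.1, fun {u v} h => hg _ _ h.1⟩⟩
  have hno1 : ¬ ∃ φ : Fin (a + 1) × Fin k → Fin m, ∀ u v, G.Adj u v → M.Adj (φ u) (φ v) := by
    rintro ⟨φ, hφ⟩
    exact h1 k P hP hg (fun p i => φ (i, p)) (fun p q hpq i i' hne => hφ _ _ ⟨hne, hpq⟩)
  have hno2 : ¬ ∃ φ : Fin (a + 1) × Fin k → Fin m, ∀ u v, G.Adj u v → Mᶜ.Adj (φ u) (φ v) := by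
    rintro ⟨φ, hφ⟩
    exact h2 k P hP hg (fun p i => φ (i, p)) (fun p q hpq i i' hne => hφ _ _ ⟨hne, hpq⟩)
  -- transport to `Fin n`
  let e : Fin ((a + 1) * k) ≃ Fin (a + 1) × Fin k := finProdFinEquiv.symm
  refine ⟨(a + 1) * k, G.comap e, ?_⟩
  refine Pool.Agent.H10.Chr.rchi_eq (G.comap e) m ?_ M ?_ ?_
  · intro A
    rcases hmap A with ⟨⟨g⟩⟩ | ⟨⟨g⟩⟩
    · exact Or.inl ⟨⟨fun x => g (e x), fun {x y} h => g.map_rel h⟩⟩
    · exact Or.inr ⟨⟨fun x => g (e x), fun {x y} h => g.map_rel h⟩⟩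
  · refine ⟨fun g => hno1 ⟨fun u => g (e.symm u), fun u v h => g.map_rel ?_⟩⟩
    simpa using h
  · refine ⟨fun g => hno2 ⟨fun u => g (e.symm u), fun u v h => g.map_rel ?_⟩⟩
    simpa using h

end Pool.Agent.H41.Chr
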