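import Pool.Agent.H41.Chr.Base

/-!
# MP_8666b3_co: fractional covers of the complements of circulants by rotations of a clique
-/

namespace Pool.Agent.H41.Chr
open SimpleGraph

/-- special circulants for the small cases: removed circular distances. -/
def RC (a : ℕ) (D : List ℕ) (d : ℕ) : Prop := a ≤ d ∧ d ∉ D

theorem cdist_rot {N u v t : ℕ} (hu : u < N) (hv : v < N) (ht : t < N) :
    cdist N ((u + t) % N) ((v + t) % N) = cdist N u v := by
  have h1 : (u + t) % N = u + t ∧ u + t < N ∨ (u + t) % N = u + t - N ∧ N ≤ u + t := by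
    rcases Nat.lt_or_ge (u + t) N with h | h
    · exact Or.inl ⟨Nat.mod_eq_of_lt h, h⟩
    · refine Or.inr ⟨?_, h⟩
      rw [Nat.mod_eq_sub_mod h, Nat.mod_eq_of_lt (by omega)]
  have h2 : (v + t) % N = v + t ∧ v + t < N ∨ (v + t) % N = v + t - N ∧ N ≤ v + t := by
    rcases Nat.lt_or_ge (v + t) N with h | h
    · exact Or.inl ⟨Nat.mod_eq_of_lt h, h⟩
    · refine Or.inr ⟨?_, h⟩
      rw [Nat.mod_eq_sub_mod h, Nat.mod_eq_of_lt (by omega)]
  unfold cdist
  rcases h1 with ⟨h1, h1'⟩ | ⟨h1, h1'⟩ <;> rcases h2 with ⟨h2, h2'⟩ | ⟨h2, h2'⟩ <;>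
    rw [h1, h2] <;> omega

theorem fracCov_circ (N : ℕ) (C : ℕ → Prop) (Q : Finset (Fin N))
    (hQ : ∀ x ∈ Q, ∀ y ∈ Q, x ≠ y → C (cdist N x y)) :
    FracCov N Q.card (circ N C)ᶜ := by
  classical
  refine ⟨fun t x => ∃ q ∈ Q, (x : ℕ) = ((q : ℕ) + t) % N, ?_, ?_⟩
  · rintro t x y ⟨q, hq, hx⟩ ⟨q', hq', hy⟩ h
    rw [SimpleGraph.compl_adj] at h
    obtain ⟨hne, hna⟩ := h
    apply hna
    refine ⟨hne, ?_⟩
    have hqq : q ≠ q' := by
      rintro rfl
      exact hne (Fin.ext (hx.trans hy.symm))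
    rw [hx, hy, cdist_rot q.isLt q'.isLt t.isLt]
    exact hQ q hq q' hq' hqq
  · intro v
    have hN : 0 < N := lt_of_le_of_lt (Nat.zero_le _) v.isLt
    let g : Fin N → Fin N := fun q => ⟨((v : ℕ) + (N - q)) % N, Nat.mod_lt _ hN⟩
    have hg : ∀ q : Fin N, ((v : ℕ) = ((q : ℕ) + (g q : ℕ)) % N) := by
      intro q
      have hq := q.isLt
      have hv := v.isLt
      show (v : ℕ) = ((q : ℕ) + ((v : ℕ) + (N - q)) % N) % N
      rw [Nat.add_mod_mod]
      have : (q : ℕ) + ((v : ℕ) + (N - q)) = v + N := by omega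
      rw [this, Nat.add_mod_right, Nat.mod_eq_of_lt hv]
    have hinj : Function.Injective g := by
      intro p q hpq
      have hp := hg p
      have hq := hg q
      rw [hpq] at hp
      have h1 := p.isLt
      have h2 := q.isLt
      have h3 := (g q).isLt
      rw [hp] at hq
      apply Fin.ext
      have h4 : ((p : ℕ) + (g q : ℕ)) ≡ ((q : ℕ) + (g q : ℕ)) [MOD N] := hq
      have h5 := Nat.ModEq.add_right_cancel' _ h4
      rw [Nat.ModEq, Nat.mod_eq_of_lt h1, Nat.mod_eq_of_lt h2] at h5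
      exact h5
    refine ⟨Q.image g, ?_, ?_⟩
    · rw [Finset.card_image_of_injective _ hinj]
    · intro t ht
      obtain ⟨q, hq, rfl⟩ := Finset.mem_image.1 ht
      exact ⟨q, hq, hg q⟩

theorem fracCov_DC (N a t r : ℕ) (ha : 5 ≤ a) (hN : N = a * a + a + r) (hr : r ≤ a)
    (ht : t ≤ 2) : FracCov N a (circ N (DC N a t))ᶜ := by
  classical
  let f : ℕ → ℕ := fun i => i * (a + 1) + min i r
  have hf : ∀ i, i < a → f i < N := by
    intro i hi
    have h1 : i * (a + 1) ≤ (a - 1) * (a + 1) := Nat.mul_le_mul_right _ (by omega)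
    have h2 : (a - 1) * (a + 1) + 1 = a * a := by
      obtain ⟨b, rfl⟩ : ∃ b, a = b + 1 := ⟨a - 1, by omega⟩
      rw [Nat.add_sub_cancel]; ring
    have h3 : min i r ≤ r := min_le_right _ _
    show i * (a + 1) + min i r < N
    omega
  have hmono : ∀ i j, i < j → j < a → a + 1 ≤ f j - f i ∧ f i < f j ∧ a + 1 ≤ N - (f j - f i) ∧
      ¬ (3 * a ≤ f j - f i ∧ f j - f i ≤ 3 * a + 2) ∧
      ¬ (3 * a ≤ N - (f j - f i) ∧ N - (f j - f i) ≤ 3 * a + 2) := by
    intro i j hij hj
    obtain ⟨k, rfl⟩ : ∃ k, j = i + k := ⟨j - i, by omega⟩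
    obtain ⟨l, rfl⟩ : ∃ l, a = k + l := ⟨a - k, by omega⟩
    have hk : 1 ≤ k := by omega
    have hl : 1 ≤ l := by omega
    have e1 : f (i + k) = i * (k + l + 1) + k * (k + l + 1) + min (i + k) r := by
      show (i + k) * (k + l + 1) + min (i + k) r = _
      ring
    have e2 : f i = i * (k + l + 1) + min i r := rfl
    have e3 : N = k * (k + l + 1) + l * (k + l + 1) + r := by rw [hN]; ring
    have d1 : f (i + k) - f i = k * (k + l + 1) + (min (i + k) r - min i r) := by
      rw [e1, e2]; omega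
    have d2 : N - (f (i + k) - f i) = l * (k + l + 1) + (r - (min (i + k) r - min i r)) := by
      rw [d1, e3]; omega
    have k1 : 1 * (k + l + 1) ≤ k * (k + l + 1) := Nat.mul_le_mul_right _ hk
    have l1 : 1 * (k + l + 1) ≤ l * (k + l + 1) := Nat.mul_le_mul_right _ hl
    refine ⟨by omega, by rw [e1, e2]; omega, by omega, ?_, ?_⟩
    · rw [d1]
      rcases Nat.lt_or_ge k 3 with h | h
      · interval_cases k <;> omega
      · have : 3 * (k + l + 1) ≤ k * (k + l + 1) := Nat.mul_le_mul_right _ h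
        omega
    · rw [d2]
      rcases Nat.lt_or_ge l 3 with h | h
      · interval_cases l <;> omega
      · have : 3 * (k + l + 1) ≤ l * (k + l + 1) := Nat.mul_le_mul_right _ h
        omega
  let Q : Finset (Fin N) := (Finset.univ : Finset (Fin a)).image
    (fun i : Fin a => (⟨f i, hf i i.isLt⟩ : Fin N))
  have hcard : Q.card = a := by
    rw [Finset.card_image_of_injective, Finset.card_univ, Fintype.card_fin]
    intro i j hij
    have h : f i = f j := congrArg Fin.val hij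
    rcases lt_trichotomy i j with h1 | h1 | h1
    · have := (hmono i j h1 j.isLt).2.1
      omega
    · exact h1
    · have := (hmono j i h1 i.isLt).2.1
      omega
  have key : ∀ i j, i < j → j < a → DC N a t (cdist N (f i) (f j)) := by
    intro i j hij hj
    obtain ⟨h1, h2, h3, h4, h5⟩ := hmono i j hij hj
    have h6 := hf j hj
    have e : (f j - f i) + (f i - f j) = f j - f i := by omega
    unfold DC cdist
    rw [e]
    rcases Nat.le_total (f j - f i) (N - (f j - f i)) with h | h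
    · rw [min_eq_left h]
      refine ⟨by omega, ?_, ?_⟩ <;> omega
    · rw [min_eq_right h]
      refine ⟨by omega, ?_, ?_⟩ <;> omega
  have := fracCov_circ N (DC N a t) Q (by
    intro x hx y hy hxy
    obtain ⟨i, -, rfl⟩ := Finset.mem_image.1 hx
    obtain ⟨j, -, rfl⟩ := Finset.mem_image.1 hy
    rcases lt_trichotomy i j with h1 | h1 | h1
    · exact key i j h1 j.isLt
    · exact absurd (by rw [h1]) hxy
    · show DC N a t (cdist N (f i) (f j))
      rw [cdist_comm]
      exact key j i h1 i.isLt)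
  rwa [hcard] at this

theorem fracCov_RC (N a : ℕ) (D : List ℕ) (Q : Finset (Fin N)) (hc : Q.card = a)
    (hQ : ∀ x ∈ Q, ∀ y ∈ Q, x ≠ y → a ≤ cdist N x y ∧ cdist N x y ∉ D) :
    FracCov N a (circ N (RC a D))ᶜ := by
  have := fracCov_circ N (RC a D) Q hQ
  rwa [hc] at this

theorem cov_20 : FracCov 20 4 (circ 20 (RC 4 [8]))ᶜ :=
  fracCov_RC 20 4 [8] {0, 4, 9, 13} (by decide) (by unfold cdist; decide)

theorem cov_21 : FracCov 21 4 (circ 21 (RC 4 [9]))ᶜ :=
  fracCov_RC 21 4 [9] {0, 4, 8, 14} (by decide) (by unfold cdist; decide)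

theorem cov_22 : FracCov 22 4 (circ 22 (RC 4 [8, 10]))ᶜ :=
  fracCov_RC 22 4 [8, 10] {0, 4, 9, 13} (by decide) (by unfold cdist; decide)

theorem cov_23 : FracCov 23 4 (circ 23 (RC 4 [5, 11]))ᶜ :=
  fracCov_RC 23 4 [5, 11] {0, 4, 8, 14} (by decide) (by unfold cdist; decide)

theorem cov_24 : FracCov 24 4 (circ 24 (RC 4 [5, 6, 12]))ᶜ :=
  fracCov_RC 24 4 [5, 6, 12] {0, 4, 8, 15} (by decide) (by unfold cdist; decide)

theorem cov_33 : FracCov 33 5 (circ 33 (RC 5 [8, 16]))ᶜ :=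
  fracCov_RC 33 5 [8, 16] {0, 5, 10, 15, 20} (by decide) (by unfold cdist; decide)

theorem cov_34 : FracCov 34 5 (circ 34 (RC 5 [9, 16, 17]))ᶜ :=
  fracCov_RC 34 5 [9, 16, 17] {0, 5, 10, 15, 20} (by decide) (by unfold cdist; decide)

theorem cov_35 : FracCov 35 5 (circ 35 (RC 5 [6, 10, 17]))ᶜ :=
  fracCov_RC 35 5 [6, 10, 17] {0, 5, 12, 19, 24} (by decide) (by unfold cdist; decide)

end Pool.Agent.H41.Chr
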