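import Pool.Agent.H41.Chr.Dfs

/-!
# MP_8666b3_co: soundness of the complete check
-/

namespace Pool.Agent.H41.Chr

open SimpleGraph

theorem mkMask_spec (C : ℕ → Bool) : ∀ (n d : ℕ), d < n → C d = true →
    (mkMask C n).testBit d = true := by
  intro n
  induction n with
  | zero => intro d hd; omega
  | succ n ih =>
    intro d hd hC
    unfold mkMask
    rcases Nat.lt_or_ge d n with h | h
    · have := ih d h hC
      cases C n
      · rw [cond_false]; exact this
      · rw [cond_true, testBit_lor, this]; rfl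
    · have hdn : d = n := by omega
      subst hdn
      rw [hC, cond_true, testBit_lor]
      have : (Nat.pow 2 d).testBit d = true := by
        have := Nat.testBit_two_pow_self (n := d)
        exact this
      rw [this, Bool.or_true]

theorem rot_spec (N s x y : ℕ) (hx : x < N) (hy : y < N)
    (h1 : x ≤ y → s.testBit (y - x) = true) (h2 : y < x → s.testBit (y + N - x) = true) :
    (rot N s x).testBit y = true := by
  unfold rot
  have e : Nat.mod (Nat.lor (Nat.shiftLeft s x) (Nat.shiftRight (Nat.shiftLeft s x) N))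
      (Nat.pow 2 N) = (s <<< x ||| (s <<< x) >>> N) % 2 ^ N := rfl
  rw [e, Nat.testBit_mod_two_pow]
  have hy' : decide (y < N) = true := by simpa using hy
  rw [hy', Bool.true_and, Nat.testBit_or, Nat.testBit_shiftLeft, Nat.testBit_shiftRight,
    Nat.testBit_shiftLeft]
  rcases Nat.lt_or_ge y x with h | h
  · have h3 := h2 h
    have e1 : N + y - x = y + N - x := by omega
    have e2 : decide (x ≤ N + y) = true := by simp; omega
    rw [e1, h3, e2]
    simp
  · have h3 := h1 h
    have e2 : decide (x ≤ y) = true := by simpa using h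
    rw [h3, e2]
    simp

theorem build_eq (N s w : ℕ) : ∀ (n : ℕ) (acc : List (ℕ × ℕ)) (k : List (ℕ × ℕ) → Bool),
    build N s w n acc k = k ((List.range' 1 n).map (fun x => (rot N s x, rot N w x)) ++ acc) := by
  intro n
  induction n with
  | zero => intro acc k; rfl
  | succ n ih =>
    intro acc k
    unfold build
    rw [force_eq, force_eq, ih]
    congr 1
    rw [List.range'_concat]
    simp [Nat.add_comm]

theorem rot_cw (N s x0 x y : ℕ) (h0 : x0 < N) (hx : x < N) (hy : y < N)
    (h : s.testBit (cw N x y) = true) :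
    (rot N s (cw N x0 x)).testBit (cw N x0 y) = true := by
  have h1 := cw_base N x0 x y h0 hx hy
  have h2 := cw_lt N x0 x h0 hx
  have h3 := cw_lt N x0 y h0 hy
  refine rot_spec N s _ _ h2 h3 ?_ ?_
  · intro hle
    rcases h1 with ⟨_, h4⟩ | ⟨h4, _⟩
    · have : cw N x0 y - cw N x0 x = cw N x y := by omega
      rw [this]; exact h
    · omega
  · intro hlt
    rcases h1 with ⟨h4, _⟩ | ⟨_, h4⟩
    · omega
    · have : cw N x0 y + N - cw N x0 x = cw N x y := by omega
      rw [this]; exact h

theorem cw_inj (N x0 x y : ℕ) (h0 : x0 < N) (hx : x < N) (hy : y < N)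
    (h : cw N x0 x = cw N x0 y) : x = y := by
  unfold cw at h
  split_ifs at h <;> omega

/-- Soundness of the complete check. -/
theorem chk_sound (N n J : ℕ) (S W : ℕ → Bool) (hchk : chk N n J S W = true)
    (f g : Fin (n + 1) → Fin N) (hf : Function.Injective f) (hg : Function.Injective g)
    (hJ : J ≤ n + 1) (hcr : ∀ i k, i ≠ k → S (cw N (f i) (g k)) = true)
    (hw : ∀ i, W (cw N (f i) (g i)) = true) : False := by
  -- sort
  set σ := Tuple.sort f with hσ
  have hmono : Monotone (f ∘ σ) := Tuple.monotone_sort f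
  have hinj : Function.Injective (f ∘ σ) := hf.comp σ.injective
  have hsm : StrictMono (f ∘ σ) := hmono.strictMono_of_injective hinj
  set x0 : ℕ := (f (σ 0) : ℕ) with hx0
  have hx0N : x0 < N := (f (σ 0)).2
  set s := mkMask S N with hs
  set w := mkMask W N with hwm
  have hsb : ∀ x y : ℕ, x < N → y < N → S (cw N x y) = true → s.testBit (cw N x y) = true :=
    fun x y hx hy h => mkMask_spec S N _ (cw_lt N x y hx hy) h
  have hwb : ∀ x y : ℕ, x < N → y < N → W (cw N x y) = true → w.testBit (cw N x y) = true :=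
    fun x y hx hy h => mkMask_spec W N _ (cw_lt N x y hx hy) h
  have hX : ∀ i, cw N x0 (f (σ i)) = (f (σ i) : ℕ) - x0 := by
    intro i
    have : f (σ 0) ≤ f (σ i) := hmono (Fin.zero_le i)
    have : x0 ≤ (f (σ i) : ℕ) := this
    unfold cw
    rw [if_pos this]
  unfold chk at hchk
  rw [force_eq, force_eq, build_eq, List.append_nil] at hchk
  let R : Fin n → VY := fun i =>
    ((rot N s (cw N x0 (f (σ i.succ))), rot N w (cw N x0 (f (σ i.succ)))),
      cw N x0 (g (σ i.succ)))
  have hne : ∀ i k : Fin (n + 1), i ≠ k → σ i ≠ σ k := fun i k h h' => h (σ.injective h')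
  have hginj : ∀ i k : Fin (n + 1), cw N x0 (g (σ i)) = cw N x0 (g (σ k)) → i = k := by
    intro i k h
    exact σ.injective (hg (Fin.ext (cw_inj N x0 _ _ hx0N (g (σ i)).2 (g (σ k)).2 h)))
  refine dfs_sound J n s [w] _ [((s, w), cw N x0 (g (σ 0)))] (List.ofFn R) ?_ ?_ ?_ ?_ ?_ ?_ ?_ ?_
    ?_ ?_ hchk
  · -- sublist
    have e : (List.ofFn R).map Prod.fst =
        (List.ofFn (fun i : Fin n => cw N x0 (f (σ i.succ)))).map
          (fun x => (rot N s x, rot N w x)) := by
      rw [List.map_ofFn, List.map_ofFn]; rfl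
    rw [e]
    apply List.Sublist.map
    have hsm2 : StrictMono (fun i : Fin n => cw N x0 (f (σ i.succ))) := by
      intro i k hik
      simp only [hX]
      have h1 : f (σ i.succ) < f (σ k.succ) := hsm (Fin.succ_lt_succ_iff.2 hik)
      have h1' : (f (σ i.succ) : ℕ) < (f (σ k.succ) : ℕ) := h1
      have h2 : f (σ 0) < f (σ i.succ) := hsm (Fin.succ_pos i)
      have h2' : x0 < (f (σ i.succ) : ℕ) := h2
      omega
    refine List.sublist_of_subperm_of_sortedLE ?_ ?_ ?_
    · refine List.Nodup.subperm ?_ ?_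
      · rw [List.nodup_ofFn]
        exact hsm2.injective
      · intro x hx
        rw [List.mem_ofFn] at hx
        obtain ⟨i, rfl⟩ := hx
        rw [List.mem_range'_1, hX]
        have h2 : f (σ 0) < f (σ i.succ) := hsm (Fin.succ_pos i)
        have h2' : x0 < (f (σ i.succ) : ℕ) := h2
        have h3 := (f (σ i.succ)).2
        omega
    · rw [List.sortedLE_ofFn_iff]
      exact hsm2.monotone
    · exact List.sortedLE_range' 1 (N - 1) 1
  · simp
  · intro r hr
    rw [List.mem_ofFn] at hr
    obtain ⟨i, rfl⟩ := hr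
    exact hsb _ _ hx0N (g (σ i.succ)).2 (hcr _ _ (hne _ _ (Fin.succ_ne_zero i).symm))
  · intro r hr
    rw [List.mem_ofFn] at hr
    obtain ⟨i, rfl⟩ := hr
    exact rot_cw N w x0 _ _ hx0N (f (σ i.succ)).2 (g (σ i.succ)).2
      (hwb _ _ (f (σ i.succ)).2 (g (σ i.succ)).2 (hw _))
  · refine List.Forall₂.cons ?_ List.Forall₂.nil
    exact hwb _ _ hx0N (g (σ 0)).2 (hw _)
  · rw [List.pairwise_ofFn]
    intro i k hik
    have hik' : i.succ ≠ k.succ := fun h => absurd (Fin.succ_injective _ h) hik.ne
    constructor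
    · exact rot_cw N s x0 _ _ hx0N (f (σ i.succ)).2 (g (σ k.succ)).2
        (hsb _ _ (f (σ i.succ)).2 (g (σ k.succ)).2 (hcr _ _ (hne _ _ hik')))
    · exact rot_cw N s x0 _ _ hx0N (f (σ k.succ)).2 (g (σ i.succ)).2
        (hsb _ _ (f (σ k.succ)).2 (g (σ i.succ)).2 (hcr _ _ (hne _ _ hik'.symm)))
  · intro r hr t ht
    rw [List.mem_ofFn] at hr
    obtain ⟨i, rfl⟩ := hr
    rw [List.mem_singleton] at ht
    subst ht
    exact rot_cw N s x0 _ _ hx0N (f (σ i.succ)).2 (g (σ 0)).2
      (hsb _ _ (f (σ i.succ)).2 (g (σ 0)).2 (hcr _ _ (hne _ _ (Fin.succ_ne_zero i))))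
  · right
    rw [List.singleton_append, List.map_cons, List.nodup_cons, List.map_ofFn, List.nodup_ofFn]
    constructor
    · rw [List.mem_ofFn]
      rintro ⟨i, hi⟩
      exact Fin.succ_ne_zero i (hginj _ _ hi)
    · intro i k hik
      exact Fin.succ_injective _ (hginj _ _ hik)
  · rw [List.map_ofFn, List.nodup_ofFn]
    intro i k hik
    exact Fin.succ_injective _ (hginj _ _ hik)
  · simp; omega

end Pool.Agent.H41.Chr
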