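import Pool.Agent.H41.Chr.Chk

/-!
# MP_8666b3_co: using the checker
-/

namespace Pool.Agent.H41.Chr

open SimpleGraph

instance (N a t : ℕ) : DecidablePred (DC N a t) := fun d => by unfold DC; infer_instance

instance (a : ℕ) (D : List ℕ) : DecidablePred (RC a D) := fun d => by unfold RC; infer_instance

/-- Connection set of the complement. -/
def coSet (N : ℕ) (C : ℕ → Prop) [DecidablePred C] (d : ℕ) : Bool :=
  cond (Nat.beq d 0) false (!decide (C (min d (N - d))))

/-- Connection set. -/
def inSet (N : ℕ) (C : ℕ → Prop) [DecidablePred C] (d : ℕ) : Bool :=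
  decide (C (min d (N - d)))

/-- Window set. -/
def winSet (N a : ℕ) (d : ℕ) : Bool := decide (min d (N - d) < a)

theorem noInj_of_chk (N a : ℕ) (C : ℕ → Prop) [DecidablePred C]
    (h : chk N a (a + 1) (coSet N C) (fun _ => true) = true) : NoInj (a + 1) (circ N C)ᶜ := by
  intro f g hf hg hcr
  refine chk_sound N a (a + 1) _ _ h f g hf hg le_rfl ?_ (fun _ => rfl)
  intro i k hik
  have h1 := hcr i k hik
  rw [SimpleGraph.compl_adj] at h1
  obtain ⟨hne, hna⟩ := h1
  have h0 : cw N (f i) (g k) ≠ 0 := by
    intro h0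
    apply hne
    have b1 := (f i).2
    have b2 := (g k).2
    apply Fin.ext
    unfold cw at h0
    split_ifs at h0 <;> omega
  have h2 : ¬ C (min (cw N (f i) (g k)) (N - cw N (f i) (g k))) := by
    rw [← cdist_cw N _ _ (f i).2 (g k).2]
    exact fun hC => hna ⟨hne, hC⟩
  unfold coSet
  rw [nbeq_false h0, cond_false]
  simp [h2]

theorem efree_of_chk (N a : ℕ) (C : ℕ → Prop) [DecidablePred C] (hC : ∀ d, C d → a ≤ d)
    (h : chk N a 0 (inSet N C) (winSet N a) = true) : EFree N a (circ N C) := by
  intro f g hcr hw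
  have hf : Function.Injective f := by
    intro i k hik
    by_contra hne
    have h1 := hC _ (hcr i k hne).2
    have h2 := hw k
    rw [← hik] at h2
    omega
  have hg : Function.Injective g := by
    intro i k hik
    by_contra hne
    have h1 := hC _ (hcr i k hne).2
    have h2 := hw i
    rw [hik] at h2
    omega
  refine chk_sound N a 0 _ _ h f g hf hg (Nat.zero_le _) ?_ ?_
  · intro i k hik
    have h1 := (hcr i k hik).2
    rw [cdist_cw N _ _ (f i).2 (g k).2] at h1
    simpa [inSet] using h1
  · intro i
    have h1 := hw i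
    rw [cdist_cw N _ _ (f i).2 (g i).2] at h1
    simpa [winSet] using h1

/-- Checks for all `r < n`. -/
def allOK (a : ℕ) : ℕ → Bool
  | 0 => true
  | r + 1 => chk (a * a + a + r) a (a + 1)
      (coSet (a * a + a + r) (DC (a * a + a + r) a (3 * r / (a + 1)))) (fun _ => true) && allOK a r

theorem noInj_of_allOK (a : ℕ) : ∀ n : ℕ, allOK a n = true → ∀ r < n,
    NoInj (a + 1) (circ (a * a + a + r) (DC (a * a + a + r) a (3 * r / (a + 1))))ᶜ := by
  intro n
  induction n with
  | zero => intro _ r hr; omega
  | succ n ih =>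
    intro h r hr
    unfold allOK at h
    rw [Bool.and_eq_true] at h
    rcases Nat.lt_or_ge r n with h1 | h1
    · exact ih h.2 r h1
    · have : r = n := by omega
      subst this
      exact noInj_of_chk _ _ _ h.1

end Pool.Agent.H41.Chr
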