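import Pool.Agent.H41.Chr.Base

/-!
# MP_8666b3_co: the complement side of the general circulant
No two injective `(a+1)`-tuples are cross adjacent in the complement of the circulant
`circ N (DC N a t)`: codegrees of vertices at most distances are smaller than `a - 1`.
-/

namespace Pool.Agent.H41.Chr

open SimpleGraph

/-- clockwise distance from `u` to `w` -/
def cpos (N u w : ℕ) : ℕ := if u ≤ w then w - u else w + N - u

theorem cpos_lt {N u w : ℕ} (hu : u < N) (hw : w < N) : cpos N u w < N := by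
  unfold cpos
  split_ifs <;> omega

theorem cpos_inj {N u w w' : ℕ} (hu : u < N) (hw : w < N) (hw' : w' < N)
    (h : cpos N u w = cpos N u w') : w = w' := by
  unfold cpos at h
  split_ifs at h <;> omega

theorem cpos_pos {N u w : ℕ} (hu : u < N) (h : u ≠ w) : 0 < cpos N u w := by
  unfold cpos
  split_ifs <;> omega

theorem cpos_swap {N u w : ℕ} (hu : u < N) (hw : w < N) (h : u ≠ w) :
    cpos N u w + cpos N w u = N := by
  unfold cpos
  split_ifs <;> omega

theorem cdist_cpos {N u w : ℕ} (hu : u < N) (hw : w < N) :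
    cdist N u w = min (cpos N u w) (N - cpos N u w) := by
  unfold cpos cdist
  split_ifs <;> omega

theorem cdist_cpos2 {N u v w : ℕ} (hu : u < N) (hv : v < N) (hw : w < N) :
    cdist N v w = min ((cpos N u v - cpos N u w) + (cpos N u w - cpos N u v))
      (N - ((cpos N u v - cpos N u w) + (cpos N u w - cpos N u v))) := by
  unfold cpos cdist
  split_ifs <;> omega

theorem two_cdist_le {N u v : ℕ} (hu : u < N) (hv : v < N) : 2 * cdist N u v ≤ N := by
  unfold cdist
  omega

/-- adjacency in the complement of the circulant -/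
theorem adj_co {N a t : ℕ} (ha : 11 ≤ a) (hN : 12 * a ≤ N) (ht : t ≤ 2) {u v : Fin N}
    (h : (circ N (DC N a t))ᶜ.Adj u v) : (u : ℕ) ≠ v ∧ (cdist N u v < a ∨
      (3 * a ≤ cdist N u v ∧ cdist N u v ≤ 3 * a + 2)) := by
  rw [SimpleGraph.compl_adj] at h
  obtain ⟨h1, h2⟩ := h
  refine ⟨fun h => h1 (Fin.ext h), ?_⟩
  by_contra h3
  apply h2
  refine ⟨h1, ?_⟩
  have h4 := two_cdist_le u.2 v.2
  unfold DC
  omega

/-- few common neighbours at large distance -/
theorem codeg_far {N a t : ℕ} (ha : 11 ≤ a) (hN : 12 * a ≤ N) (ht : t ≤ 2) {u v : Fin N}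
    (h1 : 2 * a - 1 ≤ cpos N u v) (h2 : 2 * cpos N u v ≤ N) (S : Finset (Fin N))
    (hS : ∀ w ∈ S, (circ N (DC N a t))ᶜ.Adj u w ∧ (circ N (DC N a t))ᶜ.Adj v w) :
    S.card ≤ 9 := by
  classical
  set D := cpos N u v with hD
  set T : Finset ℕ := ((Finset.range 3).image (fun k => 3 * a + k) ∪
    (Finset.range 3).image (fun k => N - 3 * a - k)) ∪
    (Finset.range 3).image (fun k => if 3 * a + k ≤ D then D - 3 * a - k else D + N - 3 * a - k)
    with hT
  have hTc : T.card ≤ 9 := by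
    refine (Finset.card_union_le _ _).trans ?_
    have a1 := Finset.card_union_le ((Finset.range 3).image (fun k => 3 * a + k))
      ((Finset.range 3).image (fun k => N - 3 * a - k))
    have a2 : ((Finset.range 3).image (fun k => 3 * a + k)).card ≤ 3 :=
      Finset.card_image_le.trans (by simp)
    have a3 : ((Finset.range 3).image (fun k => N - 3 * a - k)).card ≤ 3 :=
      Finset.card_image_le.trans (by simp)
    have a4 : ((Finset.range 3).image (fun k => if 3 * a + k ≤ D then D - 3 * a - k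
      else D + N - 3 * a - k)).card ≤ 3 := Finset.card_image_le.trans (by simp)
    omega
  refine le_trans ?_ hTc
  refine Finset.card_le_card_of_injOn (fun w : Fin N => cpos N u w) ?_ ?_
  · intro w hw
    obtain ⟨k1, k2⟩ := hS w hw
    obtain ⟨k3, k4⟩ := adj_co ha hN ht k1
    obtain ⟨k5, k6⟩ := adj_co ha hN ht k2
    rw [cdist_cpos u.2 w.2] at k4
    rw [cdist_cpos2 u.2 v.2 w.2, ← hD] at k6
    have k7 := cpos_lt u.2 w.2
    set x := cpos N u w with hx
    have key : (3 * a ≤ x ∧ x ≤ 3 * a + 2) ∨ (x + 3 * a ≤ N ∧ N ≤ x + 3 * a + 2) ∨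
        (x + 3 * a ≤ D ∧ D ≤ x + 3 * a + 2) ∨ (D < 3 * a + 2 ∧ x + 3 * a ≤ D + N ∧
          D + N ≤ x + 3 * a + 2 ∧ x + 3 * a ≤ D + N) := by omega
    simp only [hT, Finset.coe_union, Finset.coe_image, Set.mem_union, Set.mem_image,
      Finset.coe_range, Set.mem_Iio]
    rcases key with h | h | h | h
    · exact Or.inl (Or.inl ⟨x - 3 * a, by omega, by omega⟩)
    · exact Or.inl (Or.inr ⟨N - 3 * a - x, by omega, by omega⟩)
    · refine Or.inr ⟨D - 3 * a - x, by omega, ?_⟩
      rw [if_pos (by omega)]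
      omega
    · refine Or.inr ⟨D + N - 3 * a - x, by omega, ?_⟩
      rw [if_neg (by omega)]
      omega
  · intro w _ w' _ h
    exact Fin.ext (cpos_inj u.2 w.2 w'.2 h)

/-- few common neighbours at middle distance -/
theorem codeg_mid {N a t : ℕ} (ha : 11 ≤ a) (hN : 12 * a ≤ N) (ht : t ≤ 2) {u v : Fin N}
    (h1 : cpos N u v = a - 1 ∨ (a + 1 ≤ cpos N u v ∧ cpos N u v ≤ 2 * a - 2))
    (S : Finset (Fin N))
    (hS : ∀ w ∈ S, (circ N (DC N a t))ᶜ.Adj u w ∧ (circ N (DC N a t))ᶜ.Adj v w) :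
    S.card ≤ a - 2 := by
  classical
  set D := cpos N u v with hD
  have hTc : ∀ l : ℕ, (Finset.Icc l (l + a - 3)).card ≤ a - 2 := by
    intro l
    rw [Nat.card_Icc]
    omega
  have key : ∃ l : ℕ, ∀ w ∈ S, l ≤ cpos N u w ∧ cpos N u w ≤ l + a - 3 := by
    refine ⟨if D = a - 1 then 1 else D - a + 1, fun w hw => ?_⟩
    obtain ⟨k1, k2⟩ := hS w hw
    obtain ⟨k3, k4⟩ := adj_co ha hN ht k1
    obtain ⟨k5, k6⟩ := adj_co ha hN ht k2
    rw [cdist_cpos u.2 w.2] at k4
    rw [cdist_cpos2 u.2 v.2 w.2, ← hD] at k6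
    have k7 := cpos_lt u.2 w.2
    have k8 := cpos_pos u.2 k3
    have k9 : cpos N u w ≠ D := by
      intro h
      exact k5 (cpos_inj u.2 v.2 w.2 (by rw [← hD, h]))
    set x := cpos N u w with hx
    split_ifs with h
    · omega
    · omega
  obtain ⟨l, hl⟩ := key
  refine le_trans ?_ (hTc l)
  refine Finset.card_le_card_of_injOn (fun w : Fin N => cpos N u w) ?_ ?_
  · intro w hw
    simp only [Finset.coe_Icc, Set.mem_Icc]
    exact hl w hw
  · intro w _ w' _ h
    exact Fin.ext (cpos_inj u.2 w.2 w'.2 h)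

/-- integer positions of two vertices near the origin -/
theorem pos_aux {N a x x' : ℕ} (ha : 11 ≤ a) (hN : 12 * a ≤ N) (h3 : x ≤ a ∨ N ≤ x + a)
    (h4 : x' ≤ a ∨ N ≤ x' + a) (h6 : x < N) (h7 : x' < N) (h8 : x ≠ x')
    (h5 : min ((x - x') + (x' - x)) (N - ((x - x') + (x' - x))) ≤ a)
    (h5' : min ((x - x') + (x' - x)) (N - ((x - x') + (x' - x))) ≠ a - 1) (p p' : ℤ)
    (hp : p = if x ≤ a then (x : ℤ) else (x : ℤ) - N)
    (hp' : p' = if x' ≤ a then (x' : ℤ) else (x' : ℤ) - N) :
    p ≠ p' ∧ |p - p'| ≤ a ∧ |p - p'| ≠ a - 1 := by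
  have h9 : (p = x ∧ x ≤ a) ∨ (p = x - N ∧ N ≤ x + a) := by
    split_ifs at hp <;> omega
  have h10 : (p' = x' ∧ x' ≤ a) ∨ (p' = x' - N ∧ N ≤ x' + a) := by
    split_ifs at hp' <;> omega
  clear hp hp' h3 h4
  refine ⟨by omega, ?_, ?_⟩
  · rw [abs_le]
    omega
  · rcases abs_cases (p - p') with ⟨h11, h12⟩ | ⟨h11, h12⟩
    · rw [h11]
      omega
    · rw [h11]
      omega

theorem noInj_DC (N a t r : ℕ) (ha : 11 ≤ a) (hN : N = a * a + a + r) (hr : r ≤ a)
    (ht : t ≤ 2) : NoInj (a + 1) (circ N (DC N a t))ᶜ := by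
  classical
  have hN12 : 12 * a ≤ N := by nlinarith
  intro f g hf hg hX
  -- distances between the values of `f`
  have h1 : ∀ i i' : Fin (a + 1), i ≠ i' → 2 * cpos N (f i) (f i') ≤ N →
      cpos N (f i) (f i') ≤ a ∧ cpos N (f i) (f i') ≠ a - 1 := by
    intro i i' hii hle
    set S : Finset (Fin N) := ((Finset.univ.erase i).erase i').image g with hS
    have hSc : S.card = a - 1 := by
      rw [hS, Finset.card_image_of_injective _ hg, Finset.card_erase_of_mem,
        Finset.card_erase_of_mem (Finset.mem_univ _), Finset.card_univ, Fintype.card_fin]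
      · omega
      · exact Finset.mem_erase.2 ⟨hii.symm, Finset.mem_univ _⟩
    have hadj : ∀ w ∈ S, (circ N (DC N a t))ᶜ.Adj (f i) w ∧ (circ N (DC N a t))ᶜ.Adj (f i') w := by
      intro w hw
      obtain ⟨k, hk, rfl⟩ := Finset.mem_image.1 hw
      rw [Finset.mem_erase, Finset.mem_erase] at hk
      exact ⟨hX i k (Ne.symm hk.2.1), hX i' k (Ne.symm hk.1)⟩
    by_contra hcon
    by_cases h3 : 2 * a - 1 ≤ cpos N (f i) (f i')
    · have := codeg_far ha hN12 ht h3 hle S hadj
      omega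
    · have := codeg_mid ha hN12 ht (u := f i) (v := f i') (by omega) S hadj
      omega
  have h2 : ∀ i i' : Fin (a + 1), i ≠ i' → cdist N (f i) (f i') ≤ a ∧
      cdist N (f i) (f i') ≠ a - 1 := by
    intro i i' hii
    have hne : ((f i : Fin N) : ℕ) ≠ f i' := fun h => hii (hf (Fin.ext h))
    have hsw := cpos_swap (f i).2 (f i').2 hne
    rcases le_total (2 * cpos N (f i) (f i')) N with h | h
    · have h3 := h1 i i' hii h
      rw [cdist_cpos (f i).2 (f i').2]
      omega
    · have h3 := h1 i' i hii.symm (by omega)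
      rw [cdist_comm, cdist_cpos (f i').2 (f i).2]
      omega
  -- integer positions relative to `f 0`
  set u := f 0 with hu
  have hp : ∃ p : Fin (a + 1) → ℤ, ∀ i i' : Fin (a + 1), i ≠ i' →
      p i ≠ p i' ∧ |p i - p i'| ≤ a ∧ |p i - p i'| ≠ a - 1 := by
    refine ⟨fun i => if cpos N u (f i) ≤ a then (cpos N u (f i) : ℤ)
      else (cpos N u (f i) : ℤ) - N, fun i i' hii => ?_⟩
    have hc : ∀ k : Fin (a + 1), cpos N u (f k) ≤ a ∨ N ≤ cpos N u (f k) + a := by
      intro k
      by_cases hk : k = 0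
      · left
        rw [hk, ← hu]
        unfold cpos
        simp
      · have h3 := (h2 k 0 hk).1
        rw [cdist_comm, ← hu, cdist_cpos u.2 (f k).2] at h3
        omega
    have h5 := h2 i i' hii
    rw [cdist_cpos2 u.2 (f i).2 (f i').2] at h5
    exact pos_aux ha hN12 (hc i) (hc i') (cpos_lt u.2 (f i).2) (cpos_lt u.2 (f i').2)
      (fun h => hii (hf (Fin.ext (cpos_inj u.2 (f i).2 (f i').2 h)))) h5.1 h5.2 _ _ rfl rfl
  obtain ⟨p, hp⟩ := hp
  have hinj : Function.Injective p := by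
    intro i i' h
    by_contra hne
    exact (hp i i' hne).1 h
  set P : Finset ℤ := Finset.univ.image p with hP
  have hPc : P.card = a + 1 := by
    rw [hP, Finset.card_image_of_injective _ hinj, Finset.card_univ, Fintype.card_fin]
  have hPne : P.Nonempty := by
    rw [← Finset.card_pos, hPc]
    omega
  set m := P.min' hPne with hm
  have hmP : m ∈ P := Finset.min'_mem P hPne
  obtain ⟨i₀, _, hi₀⟩ := Finset.mem_image.1 hmP
  have hsub : P ⊆ Finset.Icc m (m + a) := by
    intro y hy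
    have h3 : m ≤ y := Finset.min'_le P y hy
    obtain ⟨i, _, hi⟩ := Finset.mem_image.1 hy
    rw [Finset.mem_Icc]
    refine ⟨h3, ?_⟩
    by_cases hii : i = i₀
    · rw [← hi, hii, hi₀]
      omega
    · have h4 := (hp i i₀ hii).2.1
      rw [hi, hi₀, abs_le] at h4
      omega
  have hcard : (Finset.Icc m (m + a)).card = a + 1 := by
    rw [Int.card_Icc]
    omega
  have hPeq : P = Finset.Icc m (m + a) :=
    Finset.eq_of_subset_of_card_le hsub (by rw [hcard, hPc])
  have h3 : m + a - 1 ∈ P := by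
    rw [hPeq, Finset.mem_Icc]
    omega
  obtain ⟨i, _, hi⟩ := Finset.mem_image.1 h3
  have hii : i ≠ i₀ := by
    intro h
    rw [h, hi₀] at hi
    omega
  apply (hp i i₀ hii).2.2
  rw [hi, hi₀, abs_of_nonneg (by omega)]
  omega

end Pool.Agent.H41.Chr
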