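import Pool.Agent.H41.Chr.MSide
import Pool.Agent.H41.Chr.Cov

/-!
# MP_8666b3_co: a kernel checker for cross adjacent tuples in circulant graphs
-/

namespace Pool.Agent.H41.Chr

/-- Evaluation forcing continuation passing. -/
def force {α : Type} (n : ℕ) (k : ℕ → α) : α :=
  match n with
  | 0 => k 0
  | m + 1 => k (Nat.succ m)

theorem force_eq {α : Type} (n : ℕ) (k : ℕ → α) : force n k = k n := by
  cases n <;> rfl

/-- `atLeast n z`: the number `z` has at least `n` binary digits `1`. -/
def atLeast : ℕ → ℕ → Bool
  | 0, _ => true
  | n + 1, z => cond (Nat.beq z 0) false (force (Nat.land z (Nat.sub z 1)) (atLeast n))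

/-- Test of a new vertex (with neighbour mask `nb`) against the old entries. -/
def scan (nb z : ℕ) : List ℕ → ℕ → Bool
  | [], need => atLeast need z
  | e :: es, need => force (Nat.land e nb) fun e' =>
      cond (Nat.beq e' 0) false
        (cond (Nat.beq e' z) (scan nb z es need) (scan nb z es (Nat.pred need)))

/-- Full test of a new vertex with neighbour mask `nb` and window mask `w`. -/
def tst (J z0 : ℕ) (es : List ℕ) (nb w : ℕ) : Bool :=
  force (Nat.land z0 nb) fun z => force (Nat.land z0 w) fun e =>
    cond (Nat.beq e 0) false
      (cond (Nat.beq e z) (scan nb z es J) (scan nb z es (Nat.pred J)))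

/-- Intersect all entries with a mask. -/
def mapF (nb : ℕ) : List ℕ → (List ℕ → Bool) → Bool
  | [], k => k []
  | e :: es, k => force (Nat.land e nb) fun e' => mapF nb es (fun l => k (e' :: l))

/-- Keep the vertices passing the test. -/
def filt (J z0 : ℕ) (es : List ℕ) : List (ℕ × ℕ) → (List (ℕ × ℕ) → Bool) → Bool
  | [], k => k []
  | (nb, w) :: vs, k =>
    cond (tst J z0 es nb w) (filt J z0 es vs (fun l => k ((nb, w) :: l))) (filt J z0 es vs k)

/-- Loop over the suffixes of the candidate list. -/
def dfsLoop (n : ℕ) (rec : ℕ → List ℕ → List (ℕ × ℕ) → Bool) (z0 : ℕ) (es : List ℕ) :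
    List (ℕ × ℕ) → Bool
  | [] => true
  | (nb, w) :: vs =>
    cond (Nat.ble n vs.length)
      (cond (force (Nat.land z0 nb) fun z => force (Nat.land z0 w) fun e =>
          mapF nb es fun es' => rec z (e :: es') vs)
        (dfsLoop n rec z0 es vs) false)
      true

/-- The search: `true` means that no full tuple passes the tests. -/
def dfs (J : ℕ) : ℕ → ℕ → List ℕ → List (ℕ × ℕ) → Bool
  | 0, _, _, _ => false
  | n + 1, z0, es, cs => filt J z0 es cs (fun ch => dfsLoop n (dfs J n) z0 es ch)

/-- Bit mask of the `d < n` satisfying `C`. -/
def mkMask (C : ℕ → Bool) : ℕ → ℕ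
  | 0 => 0
  | n + 1 => cond (C n) (Nat.lor (mkMask C n) (Nat.pow 2 n)) (mkMask C n)

/-- Rotation of a mask. -/
def rot (N s x : ℕ) : ℕ :=
  Nat.mod (Nat.lor (Nat.shiftLeft s x) (Nat.shiftRight (Nat.shiftLeft s x) N)) (Nat.pow 2 N)

/-- The list of masks of the vertices `1, ..., n`. -/
def build (N s w : ℕ) : ℕ → List (ℕ × ℕ) → (List (ℕ × ℕ) → Bool) → Bool
  | 0, acc, k => k acc
  | x + 1, acc, k => force (rot N s (x + 1)) fun nb => force (rot N w (x + 1)) fun nw =>
      build N s w x ((nb, nw) :: acc) k

/-- The complete check for the circulant graph on `Z_N` with (clockwise) connection set `S` and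
window set `W`, tuples of length `n + 1`, counting parameter `J`. -/
def chk (N n J : ℕ) (S W : ℕ → Bool) : Bool :=
  force (mkMask S N) fun s => force (mkMask W N) fun w =>
    build N s w (N - 1) [] fun cs => dfs J n s [w] cs

/-! ### Soundness -/

theorem nbeq_false {a b : ℕ} (h : a ≠ b) : Nat.beq a b = false := by
  cases hb : Nat.beq a b
  · rfl
  · exact absurd (Nat.eq_of_beq_eq_true hb) h

theorem testBit_land (x y i : ℕ) : (Nat.land x y).testBit i = (x.testBit i && y.testBit i) :=
  Nat.testBit_and x y i

theorem testBit_lor (x y i : ℕ) : (Nat.lor x y).testBit i = (x.testBit i || y.testBit i) :=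
  Nat.testBit_or x y i

/-- Removing the lowest digit removes only one digit. -/
theorem testBit_low (z : ℕ) : ∀ i k : ℕ, i < k → z.testBit i = true → z.testBit k = true →
    (Nat.land z (z - 1)).testBit k = true := by
  intro i k hik hi hk
  rw [testBit_land, hk, Bool.true_and]
  induction k generalizing z i with
  | zero => omega
  | succ k ih =>
    rw [Nat.testBit_succ] at hk ⊢
    rcases Nat.even_or_odd' z with ⟨c, rfl | rfl⟩
    · -- even
      have hi0 : i ≠ 0 := by
        rintro rfl
        simp at hi
      obtain ⟨i, rfl⟩ := Nat.exists_eq_succ_of_ne_zero hi0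
      rw [Nat.succ_eq_add_one, Nat.testBit_succ] at hi
      have e1 : 2 * c / 2 = c := by omega
      have e2 : (2 * c - 1) / 2 = c - 1 := by omega
      rw [e1] at hi hk
      rw [e2]
      exact ih c i (by omega) hi hk
    · have e1 : (2 * c + 1) / 2 = c := by omega
      have e2 : (2 * c + 1 - 1) / 2 = c := by omega
      rw [e1] at hk
      rw [e2]
      exact hk

theorem atLeast_of_nodup : ∀ (n z : ℕ) (Y : List ℕ), Y.Nodup → (∀ y ∈ Y, z.testBit y = true) →
    n ≤ Y.length → atLeast n z = true := by
  intro n
  induction n with
  | zero => intros; rfl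
  | succ n ih =>
    intro z Y hnd hY hlen
    have hne : Y ≠ [] := by rintro rfl; simp at hlen
    -- the minimum of `Y`
    obtain ⟨y0, hy0, hmin⟩ : ∃ y0 ∈ Y, ∀ y ∈ Y, y0 ≤ y := by
      obtain ⟨y0, h1, h2⟩ := Finset.exists_min_image Y.toFinset id
        (by obtain ⟨y, hy⟩ := List.exists_mem_of_ne_nil Y hne; exact ⟨y, by simpa using hy⟩)
      exact ⟨y0, by simpa using h1, fun y hy => h2 y (by simpa using hy)⟩
    have hz : z ≠ 0 := by
      rintro rfl
      have := hY y0 hy0
      simp at this
    have hb : Nat.beq z 0 = false := nbeq_false hz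
    unfold atLeast
    rw [hb, cond_false, force_eq]
    refine ih _ (Y.erase y0) (hnd.erase y0) ?_ ?_
    · intro y hy
      have h1 : y ≠ y0 := by
        rintro rfl
        exact (List.Nodup.not_mem_erase hnd) hy
      have h2 := List.mem_of_mem_erase hy
      have h3 := hmin y h2
      exact testBit_low z y0 y (by omega) (hY y0 hy0) (hY y h2)
    · rw [List.length_erase_of_mem hy0]
      omega

theorem scan_true (nb z : ℕ) : ∀ (es : List ℕ) (need : ℕ), (∀ e ∈ es, Nat.land e nb ≠ 0) →
    atLeast (need - (es.filter (fun e => Nat.land e nb ≠ z)).length) z = true →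
    scan nb z es need = true := by
  intro es
  induction es with
  | nil => intro need _ h; simpa [scan] using h
  | cons e es ih =>
    intro need h1 h2
    unfold scan
    rw [force_eq]
    have h3 := h1 e List.mem_cons_self
    have hb : Nat.beq (Nat.land e nb) 0 = false := nbeq_false h3
    rw [hb, cond_false]
    by_cases hz : Nat.land e nb = z
    · have hb2 : Nat.beq (Nat.land e nb) z = true := by rw [hz]; exact Nat.beq_refl z
      rw [hb2, cond_true]
      refine ih need (fun e he => h1 e (List.mem_cons_of_mem _ he)) ?_
      rw [List.filter_cons_of_neg (by simpa using hz)] at h2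
      exact h2
    · have hb2 : Nat.beq (Nat.land e nb) z = false := nbeq_false hz
      rw [hb2, cond_false]
      refine ih _ (fun e he => h1 e (List.mem_cons_of_mem _ he)) ?_
      rw [List.filter_cons_of_pos (by simpa using hz), List.length_cons] at h2
      have : Nat.pred need - (es.filter (fun e => Nat.land e nb ≠ z)).length =
          need - ((es.filter (fun e => Nat.land e nb ≠ z)).length + 1) := by
        rw [Nat.pred_eq_sub_one]; omega
      rw [this]
      exact h2

theorem mapF_eq (nb : ℕ) : ∀ (es : List ℕ) (k : List ℕ → Bool),
    mapF nb es k = k (es.map (fun e => Nat.land e nb)) := by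
  intro es
  induction es with
  | nil => intro k; rfl
  | cons e es ih => intro k; unfold mapF; rw [force_eq, ih]; rfl

theorem filt_eq (J z0 : ℕ) (es : List ℕ) : ∀ (cs : List (ℕ × ℕ)) (k : List (ℕ × ℕ) → Bool),
    filt J z0 es cs k = k (cs.filter (fun v => tst J z0 es v.1 v.2)) := by
  intro cs
  induction cs with
  | nil => intro k; rfl
  | cons v cs ih =>
    intro k
    obtain ⟨nb, w⟩ := v
    unfold filt
    cases h : tst J z0 es nb w
    · rw [cond_false, ih, List.filter_cons_of_neg (by simp [h])]
    · rw [cond_true, ih, List.filter_cons_of_pos (by simp [h])]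

theorem dfsLoop_spec (n : ℕ) (rec : ℕ → List ℕ → List (ℕ × ℕ) → Bool) (z0 : ℕ) (es : List ℕ)
    (v : ℕ × ℕ) (vs : List (ℕ × ℕ)) (hlen : vs.length = n) :
    ∀ L : List (ℕ × ℕ), List.Sublist (v :: vs) L → dfsLoop n rec z0 es L = true →
      ∃ L', List.Sublist vs L' ∧ rec (Nat.land z0 v.1) (Nat.land z0 v.2 ::
        es.map (fun e => Nat.land e v.1)) L' = true := by
  intro L
  induction L with
  | nil => intro h; simp at h
  | cons u us ih =>
    obtain ⟨nb, w⟩ := u
    intro hsub hd
    have hlen2 : n ≤ us.length := by
      have := hsub.length_le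
      simp only [List.length_cons] at this
      omega
    unfold dfsLoop at hd
    have hb : Nat.ble n us.length = true := by rw [Nat.ble_eq]; exact hlen2
    rw [hb, cond_true, force_eq, force_eq, mapF_eq] at hd
    rcases List.cons_sublist_cons'.1 hsub with h | ⟨h1, h2⟩
    · refine ih h ?_
      revert hd
      cases rec (Nat.land z0 nb) (Nat.land z0 w :: es.map (fun e => Nat.land e nb)) us <;> simp
    · subst h1
      refine ⟨us, h2, ?_⟩
      revert hd
      cases rec (Nat.land z0 nb) (Nat.land z0 w :: es.map (fun e => Nat.land e nb)) us <;> simp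

/-- A vertex (masks) together with an assigned value. -/
abbrev VY := (ℕ × ℕ) × ℕ

/-- Cross adjacency of two vertices with values. -/
def Cr (p q : VY) : Prop := p.1.1.testBit q.2 = true ∧ q.1.1.testBit p.2 = true

instance Cr_symm : Std.Symm Cr := ⟨fun _ _ h => ⟨h.2, h.1⟩⟩

theorem ne_zero_of_testBit {z i : ℕ} (h : z.testBit i = true) : z ≠ 0 := by
  rintro rfl; simp at h

theorem exists_of_forall₂ {es : List ℕ} {T : List VY}
    (h : List.Forall₂ (fun (e : ℕ) (p : VY) => e.testBit p.2 = true) es T) :
    ∀ e ∈ es, ∃ p ∈ T, e.testBit p.2 = true := by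
  induction h with
  | nil => intro e he; simp at he
  | @cons e p es T hep _ ih =>
    intro e' he'
    rcases List.mem_cons.1 he' with rfl | he'
    · exact ⟨p, List.mem_cons_self, hep⟩
    · obtain ⟨q, hq, h2⟩ := ih e' he'
      exact ⟨q, List.mem_cons_of_mem _ hq, h2⟩

theorem count_le (z nb : ℕ) : ∀ (es : List ℕ) (T : List VY),
    List.Forall₂ (fun e p => e.testBit p.2 = true) es T →
    (∀ p ∈ T, nb.testBit p.2 = true) →
    (T.filter (fun p => ¬ z.testBit p.2 = true)).length ≤
      (es.filter (fun e => Nat.land e nb ≠ z)).length := by
  intro es T h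
  induction h with
  | nil => intro _; simp
  | @cons e p es T hep _ ih =>
    intro hnb
    have ih' := ih (fun q hq => hnb q (List.mem_cons_of_mem _ hq))
    by_cases hz : z.testBit p.2 = true
    · rw [List.filter_cons_of_neg (by simpa using hz)]
      refine ih'.trans ?_
      exact List.Sublist.length_le (List.Sublist.filter _ (List.sublist_cons_self _ _))
    · rw [List.filter_cons_of_pos (by simpa using hz)]
      rw [List.filter_cons_of_pos]
      · simp only [List.length_cons]; omega
      · simp only [decide_eq_true_eq]
        intro h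
        apply hz
        rw [← h, testBit_land, hep, hnb p List.mem_cons_self]
        rfl

theorem dfs_sound (J : ℕ) : ∀ (n z0 : ℕ) (es : List ℕ) (cs : List (ℕ × ℕ)) (T R : List VY),
    List.Sublist (R.map Prod.fst) cs → R.length = n →
    (∀ r ∈ R, z0.testBit r.2 = true) →
    (∀ r ∈ R, r.1.2.testBit r.2 = true) →
    List.Forall₂ (fun e p => e.testBit p.2 = true) es T →
    R.Pairwise Cr → (∀ r ∈ R, ∀ t ∈ T, r.1.1.testBit t.2 = true) →
    (J = 0 ∨ ((T ++ R).map Prod.snd).Nodup) → ((R.map Prod.snd).Nodup) → J ≤ T.length + n →
    dfs J n z0 es cs = true → False := by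
  intro n
  induction n with
  | zero =>
    intro z0 es cs T R _ _ _ _ _ _ _ _ _ _ h
    simp [dfs] at h
  | succ n ih =>
    intro z0 es cs T R hsub hlen hz hw hes hpw hRT hnd hndR hJ hd
    unfold dfs at hd
    rw [filt_eq] at hd
    -- all elements of `R` pass the test
    have hpass : ∀ v ∈ R, tst J z0 es v.1.1 v.1.2 = true := by
      intro v hv
      unfold tst
      rw [force_eq, force_eq]
      have he : (Nat.land z0 v.1.2).testBit v.2 = true := by
        rw [testBit_land, hz v hv, hw v hv]; rfl
      have hb : Nat.beq (Nat.land z0 v.1.2) 0 = false := nbeq_false (ne_zero_of_testBit he)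
      rw [hb, cond_false]
      have hT : ∀ p ∈ T, v.1.1.testBit p.2 = true := hRT v hv
      have hne0 : ∀ e ∈ es, Nat.land e v.1.1 ≠ 0 := by
        intro e hemem
        obtain ⟨p, hp, hep⟩ := exists_of_forall₂ hes e hemem
        apply ne_zero_of_testBit (i := p.2)
        rw [testBit_land, hep, hT p hp]; rfl
      have hcount := count_le (Nat.land z0 v.1.1) v.1.1 es T hes hT
      -- the values lying in the new mask
      have key : ∀ c : ℕ, (∀ (_ : J ≠ 0), ¬ (Nat.land z0 v.1.1).testBit v.2 = true → 1 ≤ c) →
          atLeast (J - c - (es.filter (fun e => Nat.land e v.1.1 ≠ Nat.land z0 v.1.1)).length)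
            (Nat.land z0 v.1.1) = true := by
        intro c hc
        rcases Nat.eq_zero_or_pos J with hJ0 | hJ0
        · rw [hJ0]; simp [atLeast]
        rcases hnd with hnd | hnd
        · omega
        set Q := (T ++ R).filter (fun p => (Nat.land z0 v.1.1).testBit p.2) with hQ
        refine atLeast_of_nodup _ _ (Q.map Prod.snd) ?_ ?_ ?_
        · exact List.Nodup.sublist (List.Sublist.map _ List.filter_sublist) hnd
        · intro y hy
          rw [List.mem_map] at hy
          obtain ⟨p, hp, rfl⟩ := hy
          rw [hQ, List.mem_filter] at hp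
          exact hp.2
        · rw [List.length_map, hQ, List.filter_append, List.length_append]
          have e1 : (T.filter (fun p => (Nat.land z0 v.1.1).testBit p.2)).length +
              (T.filter (fun p => ¬ (Nat.land z0 v.1.1).testBit p.2 = true)).length
                = T.length := by
            have := List.length_eq_length_filter_add (l := T)
              (fun p => (Nat.land z0 v.1.1).testBit p.2)
            rw [this]
            congr 2
            apply List.filter_congr
            intro x _
            cases (Nat.land z0 v.1.1).testBit x.2 <;> rfl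
          have e2 : R.length ≤ (R.filter (fun p => (Nat.land z0 v.1.1).testBit p.2)).length +
              (if (Nat.land z0 v.1.1).testBit v.2 = true then 0 else 1) := by
            have h3 : ∀ r ∈ R, r ≠ v → (Nat.land z0 v.1.1).testBit r.2 = true := by
              intro r hr hne
              rw [testBit_land, hz r hr, (List.Pairwise.forall hpw hv hr hne.symm).1]
              rfl
            have hRnd : R.Nodup := List.Nodup.of_map _ hndR
            have h4 := List.length_eq_length_filter_add (l := R)
              (fun p => (Nat.land z0 v.1.1).testBit p.2)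
            have h5 : (R.filter (fun p => !(Nat.land z0 v.1.1).testBit p.2)).length ≤
                (if (Nat.land z0 v.1.1).testBit v.2 = true then 0 else 1) := by
              split_ifs with h6
              · have : R.filter (fun p => !(Nat.land z0 v.1.1).testBit p.2) = [] := by
                  rw [List.filter_eq_nil_iff]
                  intro r hr
                  by_cases hrv : r = v
                  · rw [hrv, h6]; simp
                  · rw [h3 r hr hrv]; simp
                rw [this]; simp
              · have hsub2 : R.filter (fun p => !(Nat.land z0 v.1.1).testBit p.2) ⊆ [v] := by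
                  intro r hr
                  rw [List.mem_filter] at hr
                  by_contra hrv
                  rw [List.mem_singleton] at hrv
                  have := h3 r hr.1 hrv
                  rw [this] at hr
                  simp at hr
                exact (List.Nodup.subperm (hRnd.filter _) hsub2).length_le
            omega
          have e3 : (if (Nat.land z0 v.1.1).testBit v.2 = true then 0 else 1) ≤ c := by
            split_ifs with h6
            · omega
            · exact hc (by omega) h6
          omega
      by_cases hez : Nat.land z0 v.1.2 = Nat.land z0 v.1.1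
      · have hb2 : Nat.beq (Nat.land z0 v.1.2) (Nat.land z0 v.1.1) = true := by
          rw [hez]; exact Nat.beq_refl _
        rw [hb2, cond_true]
        apply scan_true _ _ _ _ hne0
        have := key 0 (fun _ h => absurd (by rw [← hez]; exact he) h)
        simpa using this
      · have hb2 : Nat.beq (Nat.land z0 v.1.2) (Nat.land z0 v.1.1) = false := nbeq_false hez
        rw [hb2, cond_false]
        apply scan_true _ _ _ _ hne0
        have := key 1 (fun _ _ => le_refl 1)
        simpa [Nat.pred_eq_sub_one] using this
    have hsub2 : List.Sublist (R.map Prod.fst) (cs.filter (fun v => tst J z0 es v.1 v.2)) := by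
      have h1 := List.Sublist.filter (fun v : ℕ × ℕ => tst J z0 es v.1 v.2) hsub
      rwa [List.filter_eq_self.2] at h1
      intro u hu
      rw [List.mem_map] at hu
      obtain ⟨v, hv, rfl⟩ := hu
      exact hpass v hv
    -- first element
    match R, hlen with
    | r :: R', hlen =>
      rw [List.map_cons] at hsub2
      obtain ⟨L', hL', hrec⟩ := dfsLoop_spec n (dfs J n) z0 es r.1 (R'.map Prod.fst)
        (by rw [List.length_map]; simpa using hlen) _ hsub2 hd
      rw [List.pairwise_cons] at hpw
      refine ih (Nat.land z0 r.1.1) _ L' (r :: T) R' hL' (by simpa using hlen) ?_ ?_ ?_ hpw.2 ?_ ?_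
        ?_ ?_ hrec
      · intro r' hr'
        rw [testBit_land, hz r' (List.mem_cons_of_mem _ hr'), (hpw.1 r' hr').1]; rfl
      · intro r' hr'
        exact hw r' (List.mem_cons_of_mem _ hr')
      · refine List.Forall₂.cons ?_ ?_
        · rw [testBit_land, hz r List.mem_cons_self, hw r List.mem_cons_self]; rfl
        · rw [List.forall₂_map_left_iff]
          have h4 : ∀ p ∈ T, r.1.1.testBit p.2 = true := hRT r List.mem_cons_self
          clear hd hpass hsub2 hrec hRT hnd hJ ih
          induction hes with
          | nil => exact List.Forall₂.nil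
          | @cons e p es T hep _ ih2 =>
            refine List.Forall₂.cons ?_ (ih2 (fun q hq => h4 q (List.mem_cons_of_mem _ hq)))
            rw [testBit_land, hep, h4 p List.mem_cons_self]; rfl
      · intro r' hr' t ht
        rcases List.mem_cons.1 ht with rfl | ht
        · exact (hpw.1 r' hr').2
        · exact hRT r' (List.mem_cons_of_mem _ hr') t ht
      · rcases hnd with hnd | hnd
        · exact Or.inl hnd
        · right
          refine (List.Perm.nodup_iff ?_).1 hnd
          apply List.Perm.map
          exact List.perm_middle
      · rw [List.map_cons, List.nodup_cons] at hndR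
        exact hndR.2
      · rw [List.length_cons]; omega

end Pool.Agent.H41.Chr
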