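import Pool.Agent.H41.Chr.Base

/-!
# MP_8666b3_co, job CHR-EFREE: the general circulant has no E-pattern
-/

namespace Pool.Agent.H41.Chr

open SimpleGraph

/-- Circular distance through an integer lift of the difference. -/
theorem cdist_lift {N u v : ℕ} (hu : u < N) (hv : v < N) {D w : ℤ}
    (hD : D = (v : ℤ) - u + N * w) (hDN : |D| < N) :
    (cdist N u v : ℤ) = min |D| (N - |D|) := by
  have hN : (0 : ℤ) < N := by omega
  have hb := abs_lt.1 hDN
  have hw : w = -1 ∨ w = 0 ∨ w = 1 := by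
    have h1 : -2 < w := by
      by_contra hc
      have : (N : ℤ) * w ≤ N * (-2) := mul_le_mul_of_nonneg_left (by omega) hN.le
      omega
    have h2 : w < 2 := by
      by_contra hc
      have : (N : ℤ) * 2 ≤ N * w := mul_le_mul_of_nonneg_left (by omega) hN.le
      omega
    omega
  unfold cdist
  rcases abs_cases D with ⟨h, h'⟩ | ⟨h, h'⟩ <;> rw [h] <;> rcases hw with rfl | rfl | rfl <;> omega

/-- existence of a short lift -/
theorem exists_lift {N a u v : ℕ} (hu : u < N) (hv : v < N) (h : cdist N u v < a) :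
    ∃ e c : ℤ, |e| < a ∧ (v : ℤ) - u = e + N * c := by
  unfold cdist at h
  rcases le_total ((v - u) + (u - v)) (N - ((v - u) + (u - v))) with h1 | h1
  · rw [min_eq_left h1] at h
    refine ⟨(v : ℤ) - u, 0, ?_, by ring⟩
    rw [abs_lt]
    omega
  · rw [min_eq_right h1] at h
    rcases le_total u v with h2 | h2
    · refine ⟨(v : ℤ) - u - N, 1, ?_, by ring⟩
      rw [abs_lt]
      omega
    · refine ⟨(v : ℤ) - u + N, -1, ?_, by ring⟩
      rw [abs_lt]
      omega

/-- forbidden values of a lift of an allowed difference -/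
theorem DC_lift {N a t u v : ℕ} (hu : u < N) (hv : v < N) (haN : 3 * a + t < N)
    {D w : ℤ} (hD : D = (v : ℤ) - u + N * w) (hC : DC N a t (cdist N u v)) :
    (a : ℤ) ≤ |D| ∧ ¬ (3 * (a : ℤ) ≤ |D| ∧ |D| ≤ 3 * a + t) := by
  obtain ⟨h1, h2, h3⟩ := hC
  by_cases hDN : |D| < N
  · have h := cdist_lift hu hv hD hDN
    have h0 := abs_nonneg D
    constructor
    · have : (cdist N u v : ℤ) ≤ |D| := by rw [h]; exact min_le_left _ _
      omega
    · rintro ⟨h4, h5⟩
      rcases le_total |D| (N - |D|) with h6 | h6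
      · rw [min_eq_left h6] at h
        omega
      · rw [min_eq_right h6] at h
        omega
  · omega

theorem sum_period {j N : ℕ} (f : ℕ → ℤ) (hf : ∀ k, f (k + j) = f k + N) :
    ∑ k ∈ Finset.range j, (f (k + 3) - f k) = 3 * N := by
  have h : ∀ s, ∑ k ∈ Finset.range j, (f (k + s + 1) - f (k + s)) = N := by
    intro s
    have h1 := Finset.sum_range_sub (fun k => f (k + s)) j
    have h2 : ∀ k, f (k + s + 1) - f (k + s) = f (k + 1 + s) - f (k + s) := by
      intro k
      rw [show k + s + 1 = k + 1 + s by omega]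
    simp_rw [h2]
    rw [h1, show j + s = s + j by omega, hf s, zero_add]
    ring
  have h3 : ∀ k, f (k + 3) - f k = (f (k + 2 + 1) - f (k + 2)) + (f (k + 1 + 1) - f (k + 1)) +
      (f (k + 0 + 1) - f (k + 0)) := by
    intro k
    ring_nf
  simp_rw [h3]
  rw [Finset.sum_add_distrib, Finset.sum_add_distrib, h 2, h 1, h 0]
  ring

theorem efree_DC (N a t r : ℕ) (ha : 3 ≤ a) (hN : N = a * a + a + r) (hr : r ≤ a)
    (ht : 3 * r < (a + 1) * (t + 1)) (ht2 : t ≤ 2) : EFree N a (circ N (DC N a t)) := by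
  have haN : 3 * a + t < N := by nlinarith
  have h2aN : 2 * a ≤ N := by omega
  intro x₀ y₀ hc₀ hd₀
  -- sort
  set σ := Tuple.sort x₀ with hσ
  have hmono : Monotone (x₀ ∘ σ) := Tuple.monotone_sort x₀
  set x : Fin (a + 1) → Fin N := x₀ ∘ σ with hx
  set y : Fin (a + 1) → Fin N := y₀ ∘ σ with hy
  have hc : ∀ i i' : Fin (a + 1), i ≠ i' → DC N a t (cdist N (x i) (y i')) := by
    intro i i' hii
    exact (hc₀ (σ i) (σ i') (fun h => hii (σ.injective h))).2
  have hd : ∀ i, cdist N (x i) (y i) < a := fun i => hd₀ (σ i)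
  choose e c he hec using fun i => exists_lift (x i).2 (y i).2 (hd i)
  have hj : 0 < a + 1 := by omega
  let I : ℕ → Fin (a + 1) := fun k => ⟨k % (a + 1), Nat.mod_lt _ hj⟩
  let X : ℕ → ℤ := fun k => (x (I k) : ℕ) + N * ((k / (a + 1) : ℕ) : ℤ)
  let Y : ℕ → ℤ := fun k => X k + e (I k)
  have hI : ∀ k, I (k + (a + 1)) = I k := by
    intro k
    exact Fin.ext (Nat.add_mod_right _ _)
  have hX : ∀ k, X (k + (a + 1)) = X k + N := by
    intro k
    show ((x (I (k + (a + 1))) : ℕ) : ℤ) + N * (((k + (a + 1)) / (a + 1) : ℕ) : ℤ) =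
      (x (I k) : ℕ) + N * ((k / (a + 1) : ℕ) : ℤ) + N
    rw [hI, Nat.add_div_right _ hj]
    push_cast
    ring
  have hY : ∀ k, Y (k + (a + 1)) = Y k + N := by
    intro k
    show X (k + (a + 1)) + e (I (k + (a + 1))) = X k + e (I k) + N
    rw [hX, hI]
    ring
  have hXm : ∀ k, X k ≤ X (k + 1) := by
    intro k
    show ((x (I k) : ℕ) : ℤ) + N * ((k / (a + 1) : ℕ) : ℤ) ≤
      ((x (I (k + 1)) : ℕ) : ℤ) + N * (((k + 1) / (a + 1) : ℕ) : ℤ)
    by_cases hk : k % (a + 1) + 1 < a + 1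
    · have h1 : (k + 1) / (a + 1) = k / (a + 1) := by
        rw [Nat.div_eq_iff (by omega)]
        have := Nat.div_add_mod k (a + 1)
        have e1 : k / (a + 1) * (a + 1) = (a + 1) * (k / (a + 1)) := mul_comm _ _
        omega
      have h2 : (k + 1) % (a + 1) = k % (a + 1) + 1 := by
        rw [Nat.add_mod, Nat.mod_eq_of_lt (a := 1) (by omega), Nat.mod_eq_of_lt hk]
      have h3 : x (I k) ≤ x (I (k + 1)) := by
        apply hmono
        show k % (a + 1) ≤ (k + 1) % (a + 1)
        omega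
      have h4 : (x (I k) : ℕ) ≤ x (I (k + 1)) := h3
      rw [h1]
      omega
    · have hm : k % (a + 1) = a := by
        have := Nat.mod_lt k hj
        omega
      have h1 : (k + 1) / (a + 1) = k / (a + 1) + 1 := by
        rw [Nat.div_eq_iff (by omega)]
        have := Nat.div_add_mod k (a + 1)
        have e1 : (k / (a + 1) + 1) * (a + 1) = (a + 1) * (k / (a + 1)) + (a + 1) := by ring
        omega
      have h4 : (x (I k) : ℕ) < N := (x (I k)).2
      rw [h1]
      push_cast
      have : (0 : ℤ) ≤ ((x (I (k + 1)) : ℕ) : ℤ) := Int.natCast_nonneg _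
      nlinarith
  -- the lifts
  have key : ∀ k l, k % (a + 1) ≠ l % (a + 1) →
      (a : ℤ) ≤ |Y l - X k| ∧ ¬ (3 * (a : ℤ) ≤ |Y l - X k| ∧ |Y l - X k| ≤ 3 * a + t) := by
    intro k l hkl
    have hne : I k ≠ I l := fun h => hkl (congrArg Fin.val h)
    refine DC_lift (x (I k)).2 (y (I l)).2 haN
      (w := ((l / (a + 1) : ℕ) : ℤ) - ((k / (a + 1) : ℕ) : ℤ) - c (I l)) ?_ (hc _ _ hne)
    show ((x (I l) : ℕ) : ℤ) + N * ((l / (a + 1) : ℕ) : ℤ) + e (I l) -
      (((x (I k) : ℕ) : ℤ) + N * ((k / (a + 1) : ℕ) : ℤ)) = _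
    have := hec (I l)
    linear_combination -this
  have heI : ∀ k, -(a : ℤ) < Y k - X k ∧ Y k - X k < a := by
    intro k
    have h1 := abs_lt.1 (he (I k))
    have h2 : Y k - X k = e (I k) := by
      show X k + e (I k) - X k = e (I k)
      ring
    rw [h2]
    exact h1
  have hmod : ∀ k s, 0 < s → s < a + 1 → k % (a + 1) ≠ (k + s) % (a + 1) := by
    intro k s hs hs' h
    have h1 : k ≡ k + s [MOD (a + 1)] := h
    have h2 : (a + 1) ∣ (k + s) - k := (Nat.modEq_iff_dvd' (by omega)).1 h1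
    rw [Nat.add_sub_cancel_left] at h2
    exact absurd (Nat.le_of_dvd hs h2) (by omega)
  have s1 : ∀ k, X k + a ≤ Y (k + 1) := by
    intro k
    have h1 := (key k (k + 1) (hmod k 1 (by omega) (by omega))).1
    have h2 := heI (k + 1)
    have h3 := hXm k
    rcases le_abs.1 h1 with h | h <;> omega
  have s2 : ∀ k, Y k + a ≤ X (k + 1) := by
    intro k
    have h1 := (key (k + 1) k (hmod k 1 (by omega) (by omega)).symm).1
    have h2 := heI k
    have h3 := hXm k
    rcases le_abs.1 h1 with h | h <;> omega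
  have s3 : ∀ k, X k + (3 * a + t + 1) ≤ Y (k + 3) := by
    intro k
    have h1 := s1 k
    have h2 := s2 (k + 1)
    have h3 := s1 (k + 2)
    have h4 := (key k (k + 3) (hmod k 3 (by omega) (by omega))).2
    simp only [add_assoc, Nat.reduceAdd] at h1 h2 h3
    rw [abs_of_nonneg (by omega : 0 ≤ Y (k + 3) - X k)] at h4
    omega
  have s4 : ∀ k, Y k + (3 * a + t + 1) ≤ X (k + 3) := by
    intro k
    have h1 := s2 k
    have h2 := s1 (k + 1)
    have h3 := s2 (k + 2)
    have h4 := (key (k + 3) k (hmod k 3 (by omega) (by omega)).symm).2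
    simp only [add_assoc, Nat.reduceAdd] at h1 h2 h3
    rw [abs_of_nonpos (by omega : Y k - X (k + 3) ≤ 0)] at h4
    omega
  -- sum
  have hS : ∑ k ∈ Finset.range (a + 1), (2 * (3 * (a : ℤ) + t + 1)) ≤
      ∑ k ∈ Finset.range (a + 1), ((X (k + 3) - X k) + (Y (k + 3) - Y k)) := by
    refine Finset.sum_le_sum fun k _ => ?_
    have h1 := s3 k
    have h2 := s4 k
    linarith
  rw [Finset.sum_add_distrib, sum_period X hX, sum_period Y hY, Finset.sum_const,
    Finset.card_range, nsmul_eq_mul] at hS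
  have hf : 3 * N < (a + 1) * (3 * a + t + 1) := by
    rw [hN]
    nlinarith
  have hf' : (3 * (N : ℤ)) < (a + 1) * (3 * a + t + 1) := by exact_mod_cast hf
  push_cast at hS
  linarith

end Pool.Agent.H41.Chr
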