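import Pool.Agent.H41.Chr.ChkUse

/-!
# MP_8666b3_co: kernel checks, `a = 10`
-/

namespace Pool.Agent.H41.Chr

theorem ok10 : allOK 10 11 = true := by decide +kernel

end Pool.Agent.H41.Chr
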