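import Pool.Agent.H41.Chr.ChkUse

/-!
# MP_8666b3_co: kernel checks for the special circulants
-/

namespace Pool.Agent.H41.Chr

theorem noInj_20 : NoInj 5 (circ 20 (RC 4 [8]))ᶜ :=
  noInj_of_chk 20 4 (RC 4 [8]) (by decide +kernel)

theorem noInj_21 : NoInj 5 (circ 21 (RC 4 [9]))ᶜ :=
  noInj_of_chk 21 4 (RC 4 [9]) (by decide +kernel)

theorem noInj_33 : NoInj 6 (circ 33 (RC 5 [8, 16]))ᶜ :=
  noInj_of_chk 33 5 (RC 5 [8, 16]) (by decide +kernel)

theorem noInj_34 : NoInj 6 (circ 34 (RC 5 [9, 16, 17]))ᶜ :=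
  noInj_of_chk 34 5 (RC 5 [9, 16, 17]) (by decide +kernel)

theorem noInj_35 : NoInj 6 (circ 35 (RC 5 [6, 10, 17]))ᶜ :=
  noInj_of_chk 35 5 (RC 5 [6, 10, 17]) (by decide +kernel)

theorem efree_20 : EFree 20 4 (circ 20 (RC 4 [8])) :=
  efree_of_chk 20 4 (RC 4 [8]) (fun _ h => h.1) (by decide +kernel)

theorem efree_21 : EFree 21 4 (circ 21 (RC 4 [9])) :=
  efree_of_chk 21 4 (RC 4 [9]) (fun _ h => h.1) (by decide +kernel)

theorem efree_22 : EFree 22 4 (circ 22 (RC 4 [8, 10])) :=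
  efree_of_chk 22 4 (RC 4 [8, 10]) (fun _ h => h.1) (by decide +kernel)

theorem efree_23 : EFree 23 4 (circ 23 (RC 4 [5, 11])) :=
  efree_of_chk 23 4 (RC 4 [5, 11]) (fun _ h => h.1) (by decide +kernel)

theorem efree_24 : EFree 24 4 (circ 24 (RC 4 [9, 10, 12])) :=
  efree_of_chk 24 4 (RC 4 [9, 10, 12]) (fun _ h => h.1) (by decide +kernel)

theorem efree_33 : EFree 33 5 (circ 33 (RC 5 [8, 16])) :=
  efree_of_chk 33 5 (RC 5 [8, 16]) (fun _ h => h.1) (by decide +kernel)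

theorem efree_34 : EFree 34 5 (circ 34 (RC 5 [9, 16, 17])) :=
  efree_of_chk 34 5 (RC 5 [9, 16, 17]) (fun _ h => h.1) (by decide +kernel)

theorem efree_35 : EFree 35 5 (circ 35 (RC 5 [6, 10, 17])) :=
  efree_of_chk 35 5 (RC 5 [6, 10, 17]) (fun _ h => h.1) (by decide +kernel)

theorem cov_24' : FracCov 24 4 (circ 24 (RC 4 [9, 10, 12]))ᶜ :=
  fracCov_RC 24 4 [9, 10, 12] {0, 4, 11, 17} (by decide) (by unfold cdist; decide)

end Pool.Agent.H41.Chr
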