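import Pool.Agent.H41.Chr.SmallA
import Pool.Agent.H41.Chr.SmallB
import Pool.Agent.H41.Chr.SmallC
import Pool.Agent.H41.Chr.SmallD
import Pool.Agent.H41.Chr.EFree
import Pool.Agent.H41.Chr.CoSide
import Pool.Agent.H10.Chr.Sel

/-!
# MP_8666b3_co: assembly
-/

namespace Pool.Agent.H41.Chr

open SimpleGraph Finset

/-- The easy range `a² ≤ N < a² + a`. -/
theorem easy_range (N a : ℕ) (ha : 1 ≤ a) (h1 : a * a ≤ N) (h2 : N < a * a + a) :
    ∃ (n : ℕ) (G : SimpleGraph (Fin n)), RChi G = N + 1 := by
  classical
  have hb : a ≤ a * a := Nat.le_mul_of_pos_left a ha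
  refine realize N a (circ N (fun d => a ≤ d)) ?_ ?_
  · refine blocks_easy (N + 1) a N a _ ?_ ?_ ?_
    · rw [add_mul, mul_comm a N]; omega
    · rw [mul_add]; omega
    · refine ⟨fun t x => cw N t x < a, ?_, ?_⟩
      · intro t x y hx hy hadj
        have := close_of_window N a t x y t.2 x.2 y.2 hx hy
        have h3 : a ≤ cdist N x y := hadj.2
        omega
      · intro v
        exact ⟨univ.filter (fun t : Fin N => cw N t v < a), by
          rw [card_windows N a (by omega)], fun t ht => (mem_filter.1 ht).2⟩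
  · refine blocks_easy (N + 1) a N a _ ?_ ?_ ?_
    · rw [add_mul, mul_comm a N]; omega
    · rw [mul_add]; omega
    · have hlt : ∀ i : Fin a, (i : ℕ) * a < N := by
        intro i
        have := i.2
        have h3 : ((i : ℕ) + 1) * a ≤ a * a := Nat.mul_le_mul_right a this
        rw [add_mul, one_mul] at h3
        omega
      set Q : Finset (Fin N) := univ.image (fun i : Fin a => (⟨(i : ℕ) * a, hlt i⟩ : Fin N))
        with hQ
      have hcard : Q.card = a := by
        rw [hQ, card_image_of_injective, card_univ, Fintype.card_fin]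
        intro i k hik
        simp only [Fin.mk.injEq] at hik
        exact Fin.ext (Nat.eq_of_mul_eq_mul_right ha hik)
      have := fracCov_circ N (fun d => a ≤ d) Q ?_
      · rwa [hcard] at this
      · intro x hx y hy hne
        rw [hQ, mem_image] at hx hy
        obtain ⟨i, _, rfl⟩ := hx
        obtain ⟨k, _, rfl⟩ := hy
        have hik : (i : ℕ) ≠ k := by
          intro h
          apply hne
          simp only [h]
        have hi := i.2
        have hk := k.2
        show a ≤ cdist N ((i : ℕ) * a) ((k : ℕ) * a)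
        unfold cdist
        rcases Nat.lt_or_gt_of_ne hik with h | h
        · obtain ⟨d, hd⟩ := Nat.exists_eq_add_of_lt h
          have e : (k : ℕ) * a = i * a + d * a + a := by rw [hd]; ring
          have h4 : (i + d + 1 : ℕ) * a + a ≤ a * a := by
            have : (i + d + 1 + 1 : ℕ) * a ≤ a * a := Nat.mul_le_mul_right a (by omega)
            linarith
          have e2 : (i + d + 1 : ℕ) * a = i * a + d * a + a := by ring
          rw [e]
          omega
        · obtain ⟨d, hd⟩ := Nat.exists_eq_add_of_lt h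
          have e : (i : ℕ) * a = k * a + d * a + a := by rw [hd]; ring
          have h4 : (k + d + 1 : ℕ) * a + a ≤ a * a := by
            have : (k + d + 1 + 1 : ℕ) * a ≤ a * a := Nat.mul_le_mul_right a (by omega)
            linarith
          have e2 : (k + d + 1 : ℕ) * a = k * a + d * a + a := by ring
          rw [e]
          omega

/-- The general circulant range. -/
theorem dc_range (a r : ℕ) (ha : 5 ≤ a) (hr : r ≤ a)
    (hI : NoInj (a + 1) (circ (a * a + a + r) (DC (a * a + a + r) a (3 * r / (a + 1))))ᶜ) :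
    ∃ (n : ℕ) (G : SimpleGraph (Fin n)), RChi G = (a * a + a + r) + 1 := by
  have hb : 5 * a ≤ a * a := Nat.mul_le_mul_right a ha
  have ht : 3 * r / (a + 1) ≤ 2 := by
    have : 3 * r / (a + 1) < 3 := by
      rw [Nat.div_lt_iff_lt_mul (by omega)]
      omega
    omega
  refine realize _ a (circ (a * a + a + r) (DC (a * a + a + r) a (3 * r / (a + 1)))) ?_ ?_
  · refine blocks_mside _ a _ (by omega) (by omega) (by omega) (by omega) _
      (fun u v h => h.2.1) ?_
    exact efree_DC _ a _ r (by omega) rfl hr (Nat.lt_mul_div_succ (3 * r) (by omega)) ht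
  · refine blocks_of_sel _ a _ a _ ?_ (fracCov_DC _ a _ r ha rfl hr ht)
      (hasSel_of_noInj _ (by omega) _ hI)
    rw [add_mul, mul_comm a (a * a + a + r)]; omega

/-- The special circulants. -/
theorem rc_range (N a : ℕ) (D : List ℕ) (ha : 1 ≤ a) (h2 : 2 * a ≤ N) (hN : N ≤ a * a + 2 * a)
    (hE : EFree N a (circ N (RC a D))) (hc : FracCov N a (circ N (RC a D))ᶜ)
    (hs : HasSel (a + 1) (circ N (RC a D))ᶜ) :
    ∃ (n : ℕ) (G : SimpleGraph (Fin n)), RChi G = N + 1 := by
  refine realize _ a (circ N (RC a D)) ?_ ?_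
  · exact blocks_mside _ a _ ha h2 hN (by omega) _ (fun u v h => h.2.1) hE
  · refine blocks_of_sel _ a _ a _ ?_ hc hs
    rw [add_mul, mul_comm a N]; omega

/-- Every `m ≥ 1` outside `{3,4,7,8,9}` is realizable. -/
theorem realizable (m : ℕ) (hm : 1 ≤ m) (hx : m ≠ 3 ∧ m ≠ 4 ∧ m ≠ 7 ∧ m ≠ 8 ∧ m ≠ 9) :
    ∃ (n : ℕ) (G : SimpleGraph (Fin n)), RChi G = m := by
  obtain ⟨N, rfl⟩ : ∃ N, m = N + 1 := ⟨m - 1, by omega⟩
  rcases Nat.eq_zero_or_pos N with hN0 | hNpos
  · subst hN0
    exact ⟨1, ⊥, Pool.Agent.H10.Chr.rchi_one⟩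
  set a := Nat.sqrt N with ha
  have h1 : a * a ≤ N := Nat.sqrt_le N
  have h2 : N < (a + 1) * (a + 1) := Nat.lt_succ_sqrt N
  have hapos : 1 ≤ a := Nat.sqrt_pos.2 hNpos
  clear_value a
  rcases Nat.lt_or_ge N (a * a + a) with h3 | h3
  · exact easy_range N a hapos h1 h3
  obtain ⟨r, hr⟩ : ∃ r, N = a * a + a + r := ⟨N - (a * a + a), by omega⟩
  have hra : r ≤ a := by
    have e : (a + 1) * (a + 1) = a * a + 2 * a + 1 := by ring
    omega
  rcases Nat.lt_or_ge a 11 with h11 | h11
  · have hsel : ∀ N : ℕ, (∃ M : SimpleGraph (Fin N), Blocks (N + 1) 3 M ∧ Blocks (N + 1) 3 Mᶜ) →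
        ∃ (n : ℕ) (G : SimpleGraph (Fin n)), RChi G = N + 1 := by
      rintro N ⟨M, hM1, hM2⟩
      exact realize N 3 M hM1 hM2
    interval_cases a
    · -- a = 1
      omega
    · -- a = 2
      omega
    · -- a = 3
      interval_cases r
      · subst hr; exact hsel 12 Pool.Agent.H10.Chr.small_12
      · subst hr; exact hsel 13 Pool.Agent.H10.Chr.small_13
      · subst hr; exact hsel 14 Pool.Agent.H10.Chr.small_14
      · subst hr; exact hsel 15 Pool.Agent.H10.Chr.small_15
    · -- a = 4
      interval_cases r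
      · subst hr
        exact rc_range 20 4 [8] (by norm_num) (by norm_num) (by norm_num) efree_20 cov_20
          (hasSel_of_noInj 5 (by norm_num) _ noInj_20)
      · subst hr
        exact rc_range 21 4 [9] (by norm_num) (by norm_num) (by norm_num) efree_21 cov_21
          (hasSel_of_noInj 5 (by norm_num) _ noInj_21)
      · subst hr
        exact rc_range 22 4 [8, 10] (by norm_num) (by norm_num) (by norm_num) efree_22 cov_22
          Pool.Agent.H10.Chr.sel_22
      · subst hr
        exact rc_range 23 4 [5, 11] (by norm_num) (by norm_num) (by norm_num) efree_23 cov_23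
          Pool.Agent.H10.Chr.sel_23
      · subst hr
        exact rc_range 24 4 [9, 10, 12] (by norm_num) (by norm_num) (by norm_num) efree_24 cov_24'
          Pool.Agent.H10.Chr.sel_24
    · -- a = 5
      rcases Nat.lt_or_ge r 3 with h5 | h5
      · subst hr
        exact dc_range 5 r (by norm_num) hra (noInj_of_allOK 5 3 ok5 r h5)
      · interval_cases r
        · subst hr
          exact rc_range 33 5 [8, 16] (by norm_num) (by norm_num) (by norm_num) efree_33 cov_33
            (hasSel_of_noInj 6 (by norm_num) _ noInj_33)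
        · subst hr
          exact rc_range 34 5 [9, 16, 17] (by norm_num) (by norm_num) (by norm_num) efree_34 cov_34
            (hasSel_of_noInj 6 (by norm_num) _ noInj_34)
        · subst hr
          exact rc_range 35 5 [6, 10, 17] (by norm_num) (by norm_num) (by norm_num) efree_35 cov_35
            (hasSel_of_noInj 6 (by norm_num) _ noInj_35)
    · subst hr; exact dc_range 6 r (by norm_num) hra (noInj_of_allOK 6 7 ok6 r (by omega))
    · subst hr; exact dc_range 7 r (by norm_num) hra (noInj_of_allOK 7 8 ok7 r (by omega))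
    · subst hr; exact dc_range 8 r (by norm_num) hra (noInj_of_allOK 8 9 ok8 r (by omega))
    · subst hr; exact dc_range 9 r (by norm_num) hra (noInj_of_allOK 9 10 ok9 r (by omega))
    · subst hr; exact dc_range 10 r (by norm_num) hra (noInj_of_allOK 10 11 ok10 r (by omega))
  · subst hr
    refine dc_range a r (by omega) hra (noInj_DC _ a _ r h11 rfl hra ?_)
    have : 3 * r / (a + 1) < 3 := by
      rw [Nat.div_lt_iff_lt_mul (by omega)]
      omega
    omega

end Pool.Agent.H41.Chr
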