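import Pool.Agent.H41.Chr.Core

/-!
# MP_8666b3_co: the side of the circular graph
-/

namespace Pool.Agent.H41.Chr

open SimpleGraph Finset

/-- Clockwise distance from `u` to `v` on `{0, ..., N-1}`. -/
def cw (N u v : ℕ) : ℕ := if u ≤ v then v - u else v + N - u

theorem cw_lt (N u v : ℕ) (hu : u < N) (hv : v < N) : cw N u v < N := by
  unfold cw; split_ifs <;> omega

theorem cw_self (N u : ℕ) : cw N u u = 0 := by
  unfold cw; simp

/-- Change of base point. -/
theorem cw_base (N u v w : ℕ) (hu : u < N) (hv : v < N) (hw : w < N) :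
    (cw N u v ≤ cw N u w ∧ cw N v w + cw N u v = cw N u w) ∨
      (cw N u w < cw N u v ∧ cw N v w + cw N u v = cw N u w + N) := by
  unfold cw; split_ifs <;> omega

/-- Circular distance in terms of the clockwise distance. -/
theorem cdist_cw (N u v : ℕ) (hu : u < N) (hv : v < N) :
    cdist N u v = min (cw N u v) (N - cw N u v) := by
  unfold cdist cw; split_ifs <;> omega

/-- Two points in a window are close. -/
theorem close_of_window (N a t u v : ℕ) (ht : t < N) (hu : u < N) (hv : v < N)
    (h1 : cw N t u < a) (h2 : cw N t v < a) : cdist N u v < a := by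
  rw [cdist_cw N u v hu hv]
  have := cw_base N t u v ht hu hv
  omega

/-- The number of windows containing a given point. -/
theorem card_windows (N a : ℕ) (ha : a ≤ N) (v : Fin N) :
    ((univ : Finset (Fin N)).filter (fun t : Fin N => cw N t v < a)).card = a := by
  have hv := v.2
  have h : ((univ : Finset (Fin N)).filter (fun t : Fin N => cw N t v < a)).card = (range a).card := by
    refine card_bij (fun t _ => cw N t v) ?_ ?_ ?_
    · intro t ht
      rw [mem_filter] at ht
      exact mem_range.2 ht.2
    · intro t ht t' ht' h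
      have h1 := t.2
      have h2 := t'.2
      apply Fin.ext
      unfold cw at h
      split_ifs at h <;> omega
    · intro s hs
      rw [mem_range] at hs
      refine ⟨⟨if s ≤ v then v - s else v + N - s, by split_ifs <;> omega⟩, ?_, ?_⟩
      · rw [mem_filter]
        refine ⟨mem_univ _, ?_⟩
        unfold cw
        simp only
        split_ifs <;> omega
      · unfold cw
        simp only
        split_ifs <;> omega
  rw [h, card_range]

section

variable {N a : ℕ}

/-- Indices in the window starting at `t`. -/
def Win (a : ℕ) (f : Fin (a + 1) → Fin N) (t : Fin N) : Finset (Fin (a + 1)) :=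
  univ.filter (fun i => cw N t (f i) < a)

theorem mem_Win (f : Fin (a + 1) → Fin N) (t : Fin N) (i : Fin (a + 1)) :
    i ∈ Win a f t ↔ cw N t (f i) < a := by simp [Win]

/-- The number of windows with at least two indices. -/
def theta (a : ℕ) (f : Fin (a + 1) → Fin N) : ℕ :=
  ((univ : Finset (Fin N)).filter (fun t : Fin N => 2 ≤ (Win a f t).card)).card

/-- `y` is far from all entries of `f`. -/
def Far (a : ℕ) (f : Fin (a + 1) → Fin N) (y : Fin N) : Prop := ∀ i, a ≤ cdist N y (f i)

theorem win_le_two (h2 : 2 * a ≤ N) (f : Fin (a + 1) → Fin N) (hd : theta a f < a) (t : Fin N) :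
    (Win a f t).card ≤ 2 := by
  by_contra hcon
  push Not at hcon
  obtain ⟨i1, i2, i3, h1, h2', h3, h12, h13, h23⟩ := two_lt_card_iff.1 hcon
  rw [mem_Win] at h1 h2' h3
  -- the middle one
  have key : ∀ i j k : Fin (a + 1), i ≠ j → k ≠ j → cw N t (f i) ≤ cw N t (f j) →
      cw N t (f j) ≤ cw N t (f k) → cw N t (f k) < a → False := by
    intro i j k hij hkj hle1 hle2 hlt
    have hsub : (univ : Finset (Fin N)).filter (fun s : Fin N => cw N s (f j) < a) ⊆
        (univ : Finset (Fin N)).filter (fun s : Fin N => 2 ≤ (Win a f s).card) := by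
      intro s hs
      rw [mem_filter] at hs ⊢
      refine ⟨mem_univ _, ?_⟩
      have hs2 := hs.2
      have b1 := (f i).2
      have b2 := (f j).2
      have b3 := (f k).2
      have b4 := t.2
      have b5 := s.2
      have hor : cw N s (f i) < a ∨ cw N s (f k) < a := by
        have c1 := cw_base N t s (f i) b4 b5 b1
        have c2 := cw_base N t s (f j) b4 b5 b2
        have c3 := cw_base N t s (f k) b4 b5 b3
        have c4 := cw_lt N t s b4 b5
        omega
      rcases hor with h | h
      · exact one_lt_card_iff.2 ⟨i, j, (mem_Win f s i).2 h, (mem_Win f s j).2 hs2, hij⟩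
      · exact one_lt_card_iff.2 ⟨k, j, (mem_Win f s k).2 h, (mem_Win f s j).2 hs2, hkj⟩
    have h5 := card_le_card hsub
    rw [card_windows N a (by omega) (f j)] at h5
    unfold theta at hd
    omega
  rcases le_total (cw N t (f i1)) (cw N t (f i2)) with h | h <;>
    rcases le_total (cw N t (f i1)) (cw N t (f i3)) with h' | h' <;>
      rcases le_total (cw N t (f i2)) (cw N t (f i3)) with h'' | h''
  · exact key i1 i2 i3 h12 h23.symm h h'' h3
  · exact key i1 i3 i2 h13 h23 h' h'' h2'
  · exact key i1 i2 i3 h12 h23.symm h h'' h3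
  · exact key i3 i1 i2 h13.symm h12.symm h' h h2'
  · exact key i2 i1 i3 h12.symm h13.symm h h' h3
  · exact key i1 i3 i2 h13 h23 h' h'' h2'
  · exact key i2 i3 i1 h23 h13 h'' h' h1
  · exact key i3 i2 i1 h23.symm h12 h'' h h1

theorem sum_win (ha : a ≤ N) (f : Fin (a + 1) → Fin N) :
    ∑ t : Fin N, (Win a f t).card = (a + 1) * a := by
  have : ∑ t : Fin N, (Win a f t).card =
      ∑ i : Fin (a + 1), ((univ : Finset (Fin N)).filter (fun t : Fin N => cw N t (f i) < a)).card := by
    simp only [Win, card_filter]
    exact sum_comm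
  rw [this, sum_congr rfl (fun i _ => card_windows N a ha (f i))]
  simp

theorem empties_lt (h2 : 2 * a ≤ N) (hN : N ≤ a * a + 2 * a) (f : Fin (a + 1) → Fin N)
    (hd : theta a f < a) :
    ((univ : Finset (Fin N)).filter (fun t : Fin N => (Win a f t).card = 0)).card < 2 * a := by
  have h1 := sum_win (show a ≤ N by omega) f
  have h3 : ∑ t : Fin N, ((Win a f t).card + (if (Win a f t).card = 0 then 1 else 0)) ≤
      ∑ t : Fin N, (1 + (if 2 ≤ (Win a f t).card then 1 else 0)) := by
    refine sum_le_sum fun t _ => ?_
    have := win_le_two h2 f hd t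
    split_ifs <;> omega
  rw [sum_add_distrib, sum_add_distrib, h1, ← card_filter, ← card_filter] at h3
  simp only [sum_const, card_univ, Fintype.card_fin, smul_eq_mul, mul_one] at h3
  unfold theta at hd
  have : (a + 1) * a = a * a + a := by ring
  omega

theorem far_near (h2 : 2 * a ≤ N) (hN : N ≤ a * a + 2 * a) (f : Fin (a + 1) → Fin N)
    (hd : theta a f < a) (y z : Fin N) (hy : Far a f y) (hz : Far a f z) : cdist N y z < a := by
  by_contra hcon
  push Not at hcon
  have hsub : ∀ w : Fin N, Far a f w → (univ : Finset (Fin N)).filter (fun t : Fin N => cw N t w < a) ⊆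
      (univ : Finset (Fin N)).filter (fun t : Fin N => (Win a f t).card = 0) := by
    intro w hw t ht
    rw [mem_filter] at ht ⊢
    refine ⟨mem_univ _, ?_⟩
    rw [card_eq_zero, eq_empty_iff_forall_notMem]
    intro i hi
    rw [mem_Win] at hi
    have h4 := hw i
    have h5 := ht.2
    have h6 := close_of_window N a t w (f i) t.2 w.2 (f i).2 h5 hi
    omega
  have hdisj : Disjoint ((univ : Finset (Fin N)).filter (fun t : Fin N => cw N t y < a))
      ((univ : Finset (Fin N)).filter (fun t : Fin N => cw N t z < a)) := by
    rw [Finset.disjoint_left]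
    intro t ht ht'
    rw [mem_filter] at ht ht'
    have h6 := close_of_window N a t y z t.2 y.2 z.2 ht.2 ht'.2
    omega
  have h6 := card_le_card (union_subset (hsub y hy) (hsub z hz))
  rw [card_union_of_disjoint hdisj, card_windows N a (by omega), card_windows N a (by omega)] at h6
  have := empties_lt h2 hN f hd
  omega

/-- Existence of a label: the first entry clockwise after a far point. -/
theorem exists_label (h2 : 2 * a ≤ N) (hN : N ≤ a * a + 2 * a) (f : Fin (a + 1) → Fin N) :
    ∃ c : Fin (a + 1), theta a f < a → ∀ z, Far a f z → ∀ k, cw N z (f c) ≤ cw N z (f k) := by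
  by_cases h : ∃ y, Far a f y
  · obtain ⟨y, hy⟩ := h
    obtain ⟨c, _, hc⟩ := exists_min_image (univ : Finset (Fin (a + 1))) (fun i => cw N y (f i))
      ⟨0, mem_univ _⟩
    refine ⟨c, fun hd z hz k => ?_⟩
    have h3 := far_near h2 hN f hd y z hy hz
    have h4 := hc k (mem_univ _)
    have h5 := hy k
    have h6 := hy c
    have h7 := hz k
    have h8 := hz c
    have b1 := y.2
    have b2 := z.2
    have b3 := (f k).2
    have b4 := (f c).2
    beta_reduce at h4
    rw [cdist_cw N _ _ b1 b2] at h3
    rw [cdist_cw N _ _ b1 b3] at h5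
    rw [cdist_cw N _ _ b1 b4] at h6
    have c1 := cw_base N y z (f k) b1 b2 b3
    have c2 := cw_base N y z (f c) b1 b2 b4
    have c3 := cw_lt N y z b1 b2
    omega
  · push Not at h
    exact ⟨0, fun _ z hz => absurd hz (h z)⟩

end

/-- The circular side: an `E`-free graph whose edges join points at circular distance at least
`a` blocks `(m,a)` for every `m > N`. -/
theorem blocks_mside (N a m : ℕ) (ha : 1 ≤ a) (h2 : 2 * a ≤ N) (hN : N ≤ a * a + 2 * a)
    (hm : N < m) (M : SimpleGraph (Fin N)) (hM : ∀ u v, M.Adj u v → a ≤ cdist N u v)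
    (hE : EFree N a M) : Blocks m a M := by
  classical
  intro n P hP hg f hf
  choose c hc using fun g : Fin (a + 1) → Fin N => exists_label h2 hN g
  have hwin : ∀ (t u v : Fin N), cw N t u < a → cw N t v < a → M.Adj u v → False := by
    intro t u v h1 h3 hadj
    have h4 := hM u v hadj
    have h5 := close_of_window N a t u v t.2 u.2 v.2 h1 h3
    omega
  have hle := cover_le m a N a P hg
    (fun t p => 2 ≤ (Win a (f p) t).card ∨
      (theta a (f p) < a ∧ cw N t (f p (c (f p))) < a)) ?_ ?_
  · have : m * a ≤ N * a := by rw [mul_comm N a]; exact hle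
    have := Nat.le_of_mul_le_mul_right this ha
    omega
  · intro t p q hp hq hpq
    have hcr := hf p q hpq
    rcases hp with hp | ⟨hp1, hp2⟩
    · rcases hq with hq | ⟨hq1, hq2⟩
      · obtain ⟨i, hi⟩ := card_pos.1 (show 0 < (Win a (f p) t).card by omega)
        obtain ⟨i', hi', hne⟩ := exists_mem_ne (show 1 < (Win a (f q) t).card by omega) i
        exact hwin t _ _ ((mem_Win _ _ _).1 hi) ((mem_Win _ _ _).1 hi') (hcr i i' hne.symm)
      · obtain ⟨i, hi, hne⟩ := exists_mem_ne (show 1 < (Win a (f p) t).card by omega) (c (f q))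
        exact hwin t _ _ ((mem_Win _ _ _).1 hi) hq2 (hcr i _ hne)
    · rcases hq with hq | ⟨hq1, hq2⟩
      · obtain ⟨i', hi', hne⟩ := exists_mem_ne (show 1 < (Win a (f q) t).card by omega) (c (f p))
        exact hwin t _ _ hp2 ((mem_Win _ _ _).1 hi') (hcr _ i' hne.symm)
      · by_cases hcc : c (f p) = c (f q)
        · -- the cyclic inequality
          have hex := hE (f p) (f q) hcr
          push Not at hex
          obtain ⟨k, hk⟩ := hex
          have hfar1 : Far a (f p) (f q k) := by
            intro i
            by_cases hik : i = k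
            · rw [hik, cdist_comm]; exact hk
            · rw [cdist_comm]; exact hM _ _ (hcr i k hik)
          have hfar2 : Far a (f q) (f p k) := by
            intro i
            by_cases hik : i = k
            · rw [hik]; exact hk
            · exact hM _ _ (hcr k i (fun h => hik h.symm))
          have h3 := hc (f p) hp1 _ hfar1 k
          have h4 := hc (f q) hq1 _ hfar2 k
          rw [← hcc] at hq2 h4
          set i := c (f p) with hi
          have h5 := hfar1 i
          have h6 := hfar2 i
          have b1 := (f p i).2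
          have b2 := (f q i).2
          have b3 := (f p k).2
          have b4 := (f q k).2
          have h7 := close_of_window N a t _ _ t.2 b1 b2 hp2 hq2
          rw [cdist_comm, cdist_cw N _ _ b4 b3] at hk
          rw [cdist_cw N _ _ b4 b1] at h5
          rw [cdist_cw N _ _ b3 b2] at h6
          rw [cdist_cw N _ _ b1 b2] at h7
          have c1 := cw_base N (f q k) (f p k) (f q i) b4 b3 b2
          have c2 := cw_base N (f q k) (f p k) (f q k) b4 b3 b4
          have c3 := cw_base N (f q k) (f p i) (f q i) b4 b1 b2
          rw [cw_self] at c2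
          omega
        · exact hwin t _ _ hp2 hq2 (hcr _ _ hcc)
  · intro p
    by_cases hd : theta a (f p) < a
    · refine ⟨univ.filter (fun t : Fin N => cw N t (f p (c (f p))) < a), ?_, ?_⟩
      · rw [card_windows N a (by omega)]
      · intro t ht
        exact Or.inr ⟨hd, (mem_filter.1 ht).2⟩
    · refine ⟨univ.filter (fun t : Fin N => 2 ≤ (Win a (f p) t).card), ?_, ?_⟩
      · unfold theta at hd; omega
      · intro t ht
        exact Or.inl (mem_filter.1 ht).2

end Pool.Agent.H41.Chr
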